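import Pool.Agent.Lib.TG_h67.Final

/-!
# TG, schemes: the final theorem
-/

set_option autoImplicit false

open AlgebraicGeometry CategoryTheory Limits

namespace Pool.Agent.TGS

open Pool.Agent.LU2G (consts)
open Pool.Agent.TG

/-- The final form, for one field: dimension at most `n`. -/
theorem resolution_of_WL_le {k : Type} [Field k] [IsAlgClosed k] {n : ℕ}
    (h : ∀ m ≤ n, WL k m) (X : Scheme.{0}) [IsIntegral X]
    (f : X ⟶ Spec (CommRingCat.of k)) [LocallyOfFiniteType f] [QuasiCompact f]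
    (hn : @Algebra.trdeg k X.functionField _ _ (consts f).toAlgebra ≤ n) :
    ∃ (Y : Scheme.{0}) (π : Y ⟶ X), IsIntegral Y ∧ IsProper π ∧
      AlgebraicGeometry.Smooth (π ≫ f) ∧ ∃ U : X.Opens, Dense (U : Set X) ∧ IsIso (π ∣_ U) := by
  have hX : CompactSpace X := QuasiCompact.compactSpace_of_compactSpace f
  obtain ⟨m, hm⟩ := Cardinal.lt_aleph0.1 (hn.trans_lt Cardinal.natCast_lt_aleph0)
  have hmn : m ≤ n := by
    rw [hm] at hn
    exact_mod_cast hn
  exact resolution_of_WL (h m hmn) X f hm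

/-- The final form: for every `n` all characteristics larger than a bound. -/
theorem resolution_of_WL_all
    (h : ∀ n : ℕ, ∃ p₁ : ℕ, ∀ p : ℕ, p.Prime → p₁ < p → ∀ (k : Type) [Field k] [IsAlgClosed k]
      [CharP k p], WL k n) :
    ∀ n : ℕ, ∃ p₁ : ℕ, ∀ p : ℕ, p.Prime → p₁ < p → ∀ (k : Type) [Field k] [IsAlgClosed k]
      [CharP k p] (X : Scheme.{0}) (f : X ⟶ Spec (CommRingCat.of k)) (_ : IsIntegral X),
      LocallyOfFiniteType f → QuasiCompact f → IsSeparated f →
      @Algebra.trdeg k X.functionField _ _ (consts f).toAlgebra ≤ n →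
      ∃ (Y : Scheme.{0}) (π : Y ⟶ X), IsIntegral Y ∧ IsProper π ∧
        AlgebraicGeometry.Smooth (π ≫ f) ∧
        ∃ U : X.Opens, Dense (U : Set X) ∧ IsIso (π ∣_ U) := by
  choose p₁ hp₁ using h
  intro n
  refine ⟨(Finset.range (n + 1)).sup p₁, fun p hp hlt k _ _ _ X f hX hf hq _ hn => ?_⟩
  refine resolution_of_WL_le (fun m hm => hp₁ m p hp (lt_of_le_of_lt ?_ hlt) k) X f hn
  exact Finset.le_sup (f := p₁) (Finset.mem_range.2 (by omega))

end Pool.Agent.TGS
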