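import Pool.Agent.Lib.TG_h67.Log2

/-!
# TG, schemes: principalization of ideal sheaves from `[n]`
-/

set_option autoImplicit false

open AlgebraicGeometry CategoryTheory Limits

namespace Pool.Agent.TGS

open Pool.Agent.LU1G (IsGen cpt incV SmoothAt factor_affine frac_affine)
open Pool.Agent.LU2G (gen_unique lift_unique smooth_of_isPar const_mem consts IsSmoothAt)
open Pool.Agent.LU2 (locV IsPar Mono)
open Pool.Agent.TG

section

variable {k K : Type} [Field k] [Field K] [Algebra k K]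

/-- The ideal sheaf at a closed point of a model on which its generators are monomials. -/
theorem exists_monomial_at [IsAlgClosed k] {n : ℕ} {P : Submodule k K} {Z : Set K}
    {X Y : Scheme.{0}} [IsIntegral X] [IsIntegral Y] {I : X.IdealSheafData}
    (η : Spec (CommRingCat.of K) ⟶ X) (π : Y ⟶ X)
    (ηY : Spec (CommRingCat.of K) ⟶ Y) (hηπ : ηY ≫ π = η) (y : Y)
    (V : ValuationSubring K) (ι : Y.presheaf.stalk y →+* K) (t : Fin n → Y.presheaf.stalk y)
    (hV : ZDim k V) (hι : Spec.map (CommRingCat.ofHom ι) ≫ Y.fromSpecStalk y = ηY)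
    (hinj : Function.Injective ι) (hR : ∀ x, x ∈ RV V P ↔ ∃ a, ι a = x)
    (hval : ∀ a, V.valuation (ι a) ≤ 1)
    (hm : ∀ z ∈ Z, V.valuation z ≤ 1 → ∃ (e : Fin n → ℕ) (u : Y.presheaf.stalk y), IsUnit u ∧
        z = ι (u * ∏ i, t i ^ e i))
    (U₀ : X.affineOpens) (hyU : π y ∈ U₀.1) (ψ : Γ(X, U₀.1) →+* K)
    (hψ : Spec.map (CommRingCat.ofHom ψ) ≫ U₀.2.fromSpec = η) (S : Finset K) (hS : S.Nonempty)
    (hS0 : ∀ s ∈ S, s ≠ 0) (hSψ : ∀ s ∈ S, ∃ a, ψ a = s) (hSZ : ∀ s ∈ S, s ∈ Z)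
    (hI : I.ideal U₀ = Ideal.span {a | ψ a ∈ S})
    (hdom : Dom (Submodule.span k (S : Set K)) P) :
    ∃ e : Fin n → ℕ, ∀ (U : X.affineOpens) (hU : π y ∈ U.1),
      (I.ideal U).map (X.presheaf.germ U.1 (π y) hU ≫ π.stalkMap y).hom =
        Ideal.span {∏ i, t i ^ e i} := by
  obtain ⟨x, hx⟩ := hS
  obtain ⟨s₀, hs₀, hmin⟩ := exists_isMin_mem hV.ov S ⟨x, hx, hS0 x hx⟩
  obtain ⟨a₀, ha₀⟩ := hSψ s₀ hs₀
  set τ := (X.presheaf.germ U₀.1 (π y) hyU ≫ π.stalkMap y).hom with hτ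
  have hιτ : ∀ a, ι (τ a) = ψ a := stalk_comp π η ηY hηπ y ι hι U₀.1 U₀.2 hyU ψ hψ
  have hle : V.valuation s₀ ≤ 1 := by
    rw [← ha₀, ← hιτ]
    exact hval _
  obtain ⟨e, u, hu, hsu⟩ := hm s₀ (hSZ s₀ hs₀) hle
  have hτ₀ : τ a₀ = u * ∏ i, t i ^ e i := hinj (by rw [hιτ, ha₀, hsu])
  refine ⟨e, fun U hU => ?_⟩
  have h1 : (I.ideal U).map (X.presheaf.germ U.1 (π y) hU ≫ π.stalkMap y).hom =
      (I.ideal U₀).map τ := by
    rw [hτ, CommRingCat.hom_comp, CommRingCat.hom_comp, ← Ideal.map_map, ← Ideal.map_map,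
      ideal_stalk_eq I (π y) U U₀ hU hyU]
  rw [h1, hI, Ideal.map_span]
  apply le_antisymm
  · rw [Ideal.span_le]
    rintro _ ⟨a, ha, rfl⟩
    have h2 : ψ a / s₀ ∈ RV V P :=
      hdom V hV.ov (div_mem_RV hmin (Submodule.subset_span (Finset.mem_coe.2 ha)))
    obtain ⟨b, hb⟩ := (hR _).1 h2
    have h3 : τ a = b * τ a₀ := by
      apply hinj
      rw [map_mul, hιτ, hιτ, hb, ha₀, div_mul_cancel₀ _ (hS0 s₀ hs₀)]
    rw [SetLike.mem_coe, Ideal.mem_span_singleton, h3, hτ₀]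
    exact ⟨b * u, by ring⟩
  · rw [Ideal.span_singleton_le_iff_mem]
    obtain ⟨v, hv⟩ := hu.exists_left_inv
    have h2 : ∏ i, t i ^ e i = v * τ a₀ := by
      rw [hτ₀, ← mul_assoc, hv, one_mul]
    rw [h2]
    refine Ideal.mul_mem_left _ _ (Ideal.subset_span ⟨a₀, ?_, rfl⟩)
    change ψ a₀ ∈ S
    rw [ha₀]
    exact hs₀

end

section

variable {k : Type} [Field k]

/-- Principalization of ideal sheaves on the integral quasi-compact schemes, locally of finite type
and of dimension `n` over `k`, from the statement `[n]`. -/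
theorem principalization_of_WL [IsAlgClosed k] {n : ℕ} (h : WL k n) (X : Scheme.{0})
    [IsIntegral X] [CompactSpace X] (f : X ⟶ Spec (CommRingCat.of k)) [LocallyOfFiniteType f]
    (hn : @Algebra.trdeg k X.functionField _ _ (consts f).toAlgebra = n)
    (I : X.IdealSheafData) (hI : I ≠ ⊥) :
    ∃ (Y : Scheme.{0}) (π : Y ⟶ X), IsIntegral Y ∧ IsProper π ∧
      AlgebraicGeometry.Smooth (π ≫ f) ∧
      (∃ U : X.Opens, Dense (U : Set X) ∧ IsIso (π ∣_ U)) ∧
      ∀ y : Y, IsClosed {y} → ∃ (t : Fin n → Y.presheaf.stalk y) (e : Fin n → ℕ),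
        Ideal.span (Set.range t) = IsLocalRing.maximalIdeal (Y.presheaf.stalk y) ∧
        ∀ (U : X.affineOpens) (hU : π y ∈ U.1),
          (I.ideal U).map (X.presheaf.germ U.1 (π y) hU ≫ π.stalkMap y).hom =
            Ideal.span {∏ i, t i ^ e i} := by
  classical
  let _ : Algebra k X.functionField := (consts f).toAlgebra
  have hη : IsGen (K := X.functionField) (X.fromSpecStalk (genericPoint X)) := by
    refine ⟨RingEquiv.refl _, ?_⟩
    have h1 : (CommRingCat.ofHom (RingEquiv.refl X.functionField).toRingHom) =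
        𝟙 (CommRingCat.of X.functionField) := rfl
    rw [h1, Spec.map_id]
    exact (Category.id_comp _).symm
  have hηf : X.fromSpecStalk (genericPoint X) ≫ f =
      Spec.map (CommRingCat.ofHom (algebraMap k X.functionField)) := by
    have h1 : CommRingCat.ofHom (algebraMap k X.functionField) =
        Spec.preimage (X.fromSpecStalk (genericPoint X) ≫ f) := rfl
    rw [h1, Spec.map_preimage]
  have hK : (⊤ : IntermediateField k X.functionField).FG :=
    LU2H.fg_functionField (K := X.functionField) f (X.fromSpecStalk (genericPoint X)) hη hηf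
  have hln : IsLocallyNoetherian X := LocallyOfFiniteType.isLocallyNoetherian f
  -- a finite affine covering
  have h0 : ∀ x : X, ∃ U : X.affineOpens, x ∈ U.1 := by
    intro x
    obtain ⟨U, hU, hxU, -⟩ := exists_isAffineOpen_mem_and_subset
      (x := x) (U := ⊤) (Set.mem_univ _)
    exact ⟨⟨U, hU⟩, hxU⟩
  choose U hxU using h0
  have hgU : ∀ x, genericPoint X ∈ (U x).1 := fun x =>
    ((genericPoint_spec X).mem_open_set_iff (U x).1.isOpen).mpr ⟨x, trivial, hxU x⟩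
  obtain ⟨T, hT⟩ := CompactSpace.elim_nhds_subcover (fun x : X => ((U x).1 : Set X))
    (fun x => (U x).1.isOpen.mem_nhds (hxU x))
  have hψe : ∀ x, ∃ ψ : Γ(X, (U x).1) →+* X.functionField, Function.Injective ψ ∧
      Spec.map (CommRingCat.ofHom ψ) ≫ (U x).2.fromSpec = X.fromSpecStalk (genericPoint X) := by
    intro x
    obtain ⟨ψ, -, -, hinj, hψ, -⟩ := exists_psi (K := X.functionField) f
      (X.fromSpecStalk (genericPoint X)) hη hηf (U x).1 (U x).2 (hgU x)
    exact ⟨ψ, hinj, hψ⟩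
  choose ψ hψinj hψ using hψe
  choose S hS hS0 hSψ hSI using fun x => exists_ideal_gens hI (U x) ⟨x, hxU x⟩ (ψ x) (hψinj x)
  have hQ : ∀ x, IsModel (Submodule.span k (S x : Set X.functionField)) := by
    intro x
    refine ⟨⟨S x, rfl⟩, fun h1 => ?_⟩
    obtain ⟨s, hs⟩ := hS x
    exact hS0 x s hs ((Submodule.span_eq_bot.1 h1) s (Finset.mem_coe.2 hs))
  obtain ⟨P₁, hP₁, hdom₁⟩ := exists_dom_family T
    (fun x => Submodule.span k (S x : Set X.functionField)) hQ
  obtain ⟨P₂, hP₂, hdom₂⟩ := exists_model_dom (K := X.functionField) X f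
    (X.fromSpecStalk (genericPoint X)) hη hηf
  obtain ⟨P, hP, hPP, hlog⟩ := h X.functionField hK hn (P₁ * P₂) (hP₁.mul hP₂) (T.biUnion S) (by
    intro z hz
    obtain ⟨x, -, hz⟩ := Finset.mem_biUnion.1 hz
    exact hS0 x z hz)
  obtain ⟨Y, hY, π, ηY, hπ, hsm, hηπ, hgen, ⟨W, hW, hiso⟩, hloc⟩ := exists_resolution_of_model
    (K := X.functionField) X f (X.fromSpecStalk (genericPoint X)) hη hηf P hP
    (hdom₂ P ((Dom.mul_right hP₁ hP₂).trans hPP))
    (fun V hV => exists_isPar_of_logReg hP hlog V hV)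
  refine ⟨Y, π, hY, hπ, hsm, ⟨W, W.isOpen.dense ⟨_, hW⟩, hiso⟩, fun y hy => ?_⟩
  have hηg : ηY ≫ π ≫ f = Spec.map (CommRingCat.ofHom (algebraMap k X.functionField)) := by
    rw [← Category.assoc, hηπ, hηf]
  obtain ⟨V, ι, t, hV, hι, hinj, hR, hval, hspan, hm⟩ := exists_par_at (K := X.functionField)
    hlog (π ≫ f) ηY hgen hηg hloc y hy
  have h1 : π y ∈ ⋃ x ∈ T, ((U x).1 : Set X) := by
    rw [hT]
    trivial
  rw [Set.mem_iUnion₂] at h1
  obtain ⟨x, hx, hyx⟩ := h1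
  obtain ⟨e, he⟩ := exists_monomial_at (K := X.functionField) (I := I)
    (X.fromSpecStalk (genericPoint X)) π ηY hηπ y V ι t hV hι hinj hR hval hm (U x) hyx (ψ x)
    (hψ x) (S x) (hS x) (hS0 x) (hSψ x)
    (fun s hs => Finset.mem_coe.2 (Finset.mem_biUnion.2 ⟨x, hx, hs⟩)) (hSI x)
    ((hdom₁ x hx).trans ((Dom.mul_left hP₁ hP₂).trans hPP))
  exact ⟨t, e, hspan, he⟩

end

end Pool.Agent.TGS
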