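import Pool.Agent.Lib.TG_h67.Model

/-!
# TG, schemes: the scheme over `X` defined by a model, construction
-/

set_option autoImplicit false

open AlgebraicGeometry CategoryTheory Limits HomogeneousLocalization

namespace Pool.Agent.TGS

open Pool.Agent.LU1G (IsGen cpt incV factor_affine frac_affine)
open Pool.Agent.LU2G (gen_unique lift_unique)
open Pool.Agent.LU2 (locV)
open Pool.Agent.ALLQC (isIntegral_image fromSpec_mem)
open Pool.Agent.TG (Ov IsMin IsModel ch RV RV_eq RV_le RV_inv ch_le_iff)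

attribute [local instance] MvPolynomial.gradedAlgebra

section

variable {k K : Type} [Field k] [Field K] [Algebra k K]

/-- The chart of the projective space is defined over a ring that contains the ratios. -/
theorem exists_beta {N : ℕ} (p : Fin N → K) (i : Fin N) (hi : p i ≠ 0) {A : Type} [CommRing A]
    (ψ : A →+* K) (hψ : Function.Injective ψ) (B : Subalgebra k K)
    (hB : ∀ b ∈ B, ∃ a, ψ a = b) (h : ∀ j, p j / p i ∈ B) :
    ∃ β : Away (gr k N) (MvPolynomial.X i : MvPolynomial (Fin N) k) →+* A,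
      ψ.comp β = θK p i hi := by
  refine exists_lift ψ hψ _ fun r => hB _ ?_
  have h1 : ch (Submodule.span k (Set.range p)) (p i) ≤ B := by
    rw [ch_le_iff]
    intro g hg
    induction hg using Submodule.span_induction with
    | mem x hx =>
      obtain ⟨j, rfl⟩ := hx
      exact h j
    | zero => rw [zero_div]; exact B.zero_mem
    | add x y _ _ hx hy => rw [add_div]; exact B.add_mem hx hy
    | smul c x _ hx => rw [smul_div_assoc]; exact B.smul_mem hx c
  exact h1 (θK_mem p _ rfl i hi r)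

/-- The scheme over `X` defined by a model. -/
theorem exists_model_scheme (X : Scheme.{0}) [IsIntegral X] (f : X ⟶ Spec (CommRingCat.of k))
    (η : Spec (CommRingCat.of K) ⟶ X) (hη : IsGen η)
    (hηf : η ≫ f = Spec.map (CommRingCat.ofHom (algebraMap k K))) (P : Submodule k K)
    (hP : IsModel P) :
    ∃ (Y : Scheme.{0}) (_ : IsIntegral Y) (π : Y ⟶ X) (ηY : Spec (CommRingCat.of K) ⟶ Y),
      IsProper π ∧ ηY ≫ π = η ∧ IsGen ηY ∧
      (∃ W : X.Opens, genericPoint X ∈ W ∧ IsIso (π ∣_ W)) ∧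
      ∀ (V : ValuationSubring K) (c : Spec (CommRingCat.of V) ⟶ Y), incV V ≫ c = ηY → Ov k V →
        (∃ (U : X.Opens) (hU : IsAffineOpen U) (φ : Γ(X, U) →+* V),
          Spec.map (CommRingCat.ofHom φ) ≫ hU.fromSpec = c ≫ π ∧ ∀ a, (φ a : K) ∈ RV V P) →
        ∃ (O : Y.Opens) (hO : IsAffineOpen O) (φ : Γ(Y, O) →+* V), c (cpt V) ∈ O ∧
          Spec.map (CommRingCat.ofHom φ) ≫ hO.fromSpec = c ∧ (∀ a, (φ a : K) ∈ RV V P) ∧
          ∀ r ∈ RV V P, ∃ a b, V.valuation (φ b : K) = 1 ∧ r = (φ a : K) / φ b := by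
  classical
  obtain ⟨S, hS⟩ := hP.fg
  let N : ℕ := S.card
  let p : Fin N → K := fun i => (S.equivFin.symm i : K)
  have hp : Submodule.span k (Set.range p) = P := by
    rw [← hS]
    congr 1
    ext x
    constructor
    · rintro ⟨i, rfl⟩
      exact (S.equivFin.symm i).2
    · intro hx
      exact ⟨S.equivFin ⟨x, hx⟩, by simp [p]⟩
  obtain ⟨i₀, hi₀⟩ : ∃ i, p i ≠ 0 := by
    by_contra hno
    push Not at hno
    refine hP.ne ?_
    rw [← hp, Submodule.span_eq_bot]
    rintro _ ⟨i, rfl⟩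
    exact hno i
  let τ : Spec (CommRingCat.of K) ⟶ PS k N := ptK p i₀ hi₀
  have hτ : τ ≫ toK k N = Spec.map (CommRingCat.ofHom (algebraMap k K)) := ptK_toK p i₀ hi₀
  let g : Spec (CommRingCat.of K) ⟶ pullback f (toK k N) := pullback.lift η τ (by rw [hηf, hτ])
  have hTp : IsProper (toK k N) := isProper_toK k N
  let Y : Scheme.{0} := g.image
  let π : Y ⟶ X := g.imageι ≫ pullback.fst f (toK k N)
  let q : Y ⟶ PS k N := g.imageι ≫ pullback.snd f (toK k N)
  let ηY : Spec (CommRingCat.of K) ⟶ Y := g.toImage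
  have hY : IsIntegral Y := isIntegral_image g
  have hπ : IsProper π := inferInstanceAs (IsProper (g.imageι ≫ pullback.fst f (toK k N)))
  have hηπ : ηY ≫ π = η := by
    change g.toImage ≫ g.imageι ≫ pullback.fst f (toK k N) = η
    rw [Scheme.Hom.toImage_imageι_assoc, pullback.lift_fst]
  have hηq : ηY ≫ q = τ := by
    change g.toImage ≫ g.imageι ≫ pullback.snd f (toK k N) = τ
    rw [Scheme.Hom.toImage_imageι_assoc, pullback.lift_snd]
  -- morphisms from spectra of subrings of `K`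
  have hfac : ∀ (A : Type) [CommRing A] (ψ : A →+* K) (_ : Function.Injective ψ)
      (a : Spec (CommRingCat.of A) ⟶ X) (b : Spec (CommRingCat.of A) ⟶ PS k N),
      a ≫ f = b ≫ toK k N → Spec.map (CommRingCat.ofHom ψ) ≫ a = η →
      Spec.map (CommRingCat.ofHom ψ) ≫ b = τ →
      ∃ s : Spec (CommRingCat.of A) ⟶ Y, s ≫ π = a ∧ s ≫ q = b ∧
        Spec.map (CommRingCat.ofHom ψ) ≫ s = ηY := by
    intro A _ ψ hψ a b hab ha hb
    have hdom : IsDomain A := hψ.isDomain ψ
    obtain ⟨s, hs, hs'⟩ := exists_factor_image ψ hψ g (pullback.lift a b hab) (by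
      apply pullback.hom_ext
      · rw [Category.assoc, pullback.lift_fst, pullback.lift_fst, ha]
      · rw [Category.assoc, pullback.lift_snd, pullback.lift_snd, hb])
    refine ⟨s, ?_, ?_, hs'⟩
    · change s ≫ g.imageι ≫ pullback.fst f (toK k N) = a
      rw [reassoc_of% hs, pullback.lift_fst]
    · change s ≫ g.imageι ≫ pullback.snd f (toK k N) = b
      rw [reassoc_of% hs, pullback.lift_snd]
  -- the open set over which `π` is an isomorphism
  have hbir : ∃ W : X.Opens, genericPoint X ∈ W ∧ IsIso (π ∣_ W) := by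
    obtain ⟨W, hW, hgW, hx⟩ := exists_open (X := X) η hη fun j => p j / p i₀
    obtain ⟨ψ, φk, B, hψ, hψη, hφk, hψk, hB⟩ := exists_psi f η hη hηf W hW hgW
    obtain ⟨β, hβ⟩ := exists_beta (k := k) p i₀ hi₀ ψ hψ B (fun b hb => (hB b).1 hb)
      (fun j => (hB _).2 (hx ψ hψη j))
    have hβk : β.comp (ck i₀) = φk := by
      ext c
      apply hψ
      have h1 : ψ (β (ck i₀ c)) = θK p i₀ hi₀ (ck i₀ c) := DFunLike.congr_fun hβ _
      rw [RingHom.comp_apply, h1, θK_ck, hψk]
    obtain ⟨s, hsπ, -, hsη⟩ := hfac Γ(X, W) ψ hψ hW.fromSpec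
      (Spec.map (CommRingCat.ofHom β) ≫ chι k i₀) (by
        rw [Category.assoc, chι_toK, ← Spec.map_comp, ← hφk, ← hβk]
        rfl) hψη (by
        rw [← Category.assoc, ← Spec.map_comp]
        have h1 : CommRingCat.ofHom β ≫ CommRingCat.ofHom ψ =
            CommRingCat.ofHom (θK p i₀ hi₀) := by
          rw [← hβ]
          rfl
        rw [h1]
        rfl)
    refine ⟨W, hgW, isIso_of_section π ηY W (hW.isoSpec.hom ≫ s) ?_
      (Spec.map (CommRingCat.ofHom ψ) ≫ hW.isoSpec.inv) ?_⟩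
    · rw [Category.assoc, hsπ]
      exact hW.isoSpec_hom_fromSpec
    · rw [Category.assoc, Iso.inv_hom_id_assoc, hsη]
  have hgen : IsGen ηY := by
    obtain ⟨W, hgW, hiso⟩ := hbir
    obtain ⟨η', hη', hη'g⟩ := IsGen.lift π W hgW hiso η hη
    have h1 : η' = ηY := gen_unique π W hgW hiso η' ηY (by rw [hη']; exact hη) (by
      rw [hη', hηπ])
    rw [← h1]
    exact hη'g
  refine ⟨Y, hY, π, ηY, hπ, hηπ, hgen, hbir, ?_⟩
  intro V c hc hV ⟨U, hU, φ, hφ, hφR⟩
  -- the minimal element
  obtain ⟨i, hmin⟩ : ∃ i, IsMin V P (p i) := by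
    obtain ⟨x, hx, hxm⟩ := TG.exists_isMin_mem hV S (by
      refine ⟨p i₀, (S.equivFin.symm i₀).2, hi₀⟩)
    rw [hS] at hxm
    exact ⟨S.equivFin ⟨x, hx⟩, by simpa [p] using hxm⟩
  have hi : p i ≠ 0 := hmin.ne
  have hlocR : IsLocalRing (RV V P) := isLocalRing_RV hV hP
  let ιR : RV V P →+* K := (RV V P).val.toRingHom
  have hιR : Function.Injective ιR := Subtype.val_injective
  -- the two components of the morphism from the local ring of the model
  let φR : Γ(X, U) →+* RV V P :=
    ((algebraMap V K).comp φ).codRestrict (RV V P) fun a => hφR a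
  let θR : Away (gr k N) (MvPolynomial.X i : MvPolynomial (Fin N) k) →+* RV V P :=
    (θK p i hi).codRestrict (RV V P) fun a => by
      have h1 := θK_mem p P hp i hi a
      rw [RV_eq hmin]
      exact LU2.le_locV _ h1
  have hφη : Spec.map (CommRingCat.ofHom ((algebraMap V K).comp φ)) ≫ hU.fromSpec = η := by
    rw [← hηπ, ← hc, Category.assoc, ← hφ, ← Category.assoc, ← Spec.map_comp]
    rfl
  have hfst : Spec.map (CommRingCat.ofHom ιR) ≫ Spec.map (CommRingCat.ofHom φR) ≫ hU.fromSpec =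
      η := by
    rw [← Category.assoc, ← Spec.map_comp, ← hφη]
    rfl
  have hsnd : Spec.map (CommRingCat.ofHom ιR) ≫ Spec.map (CommRingCat.ofHom θR) ≫ chι k i =
      τ := by
    rw [← Category.assoc, ← Spec.map_comp]
    have h1 : CommRingCat.ofHom θR ≫ CommRingCat.ofHom ιR = CommRingCat.ofHom (θK p i hi) := rfl
    rw [h1]
    exact ptK_eq p i i₀ hi hi₀
  obtain ⟨ρ, hρπ, hρq, hρη⟩ := hfac (RV V P) ιR hιR
    (Spec.map (CommRingCat.ofHom φR) ≫ hU.fromSpec)
    (Spec.map (CommRingCat.ofHom θR) ≫ chι k i) (by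
      refine spec_ext ιR hιR _ _ ?_
      rw [← Category.assoc (Spec.map (CommRingCat.ofHom ιR)), hfst,
        ← Category.assoc (Spec.map (CommRingCat.ofHom ιR)), hsnd, hηf, hτ]) hfst hsnd
  let inc : Spec (CommRingCat.of V) ⟶ Spec (CommRingCat.of (RV V P)) :=
    Spec.map (CommRingCat.ofHom (incR hV hP))
  have hincρ : inc ≫ ρ = c := by
    refine lift_unique π V _ _ ?_ ?_
    · rw [Category.assoc, hρπ, ← hφ, ← Category.assoc, ← Spec.map_comp]
      have h1 : CommRingCat.ofHom φR ≫ CommRingCat.ofHom (incR hV hP) = CommRingCat.ofHom φ := rfl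
      rw [h1]
    · rw [hc, ← hρη, ← Category.assoc, ← Spec.map_comp]
      rfl
  have hcl : inc (cpt V) = IsLocalRing.closedPoint (RV V P) := by
    have := isLocalHom_incR hV hP
    exact IsLocalRing.comap_closedPoint (incR hV hP)
  have hρcl : ρ (IsLocalRing.closedPoint (RV V P)) = c (cpt V) := by
    rw [← hcl, ← hincρ]
    rfl
  -- the affine open neighbourhood
  have hmem : c (cpt V) ∈ q ⁻¹ᵁ (chι k i).opensRange := by
    change q (c (cpt V)) ∈ (chι k i).opensRange
    rw [← hρcl]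
    have h1 : q (ρ (IsLocalRing.closedPoint (RV V P))) =
      (ρ ≫ q) (IsLocalRing.closedPoint (RV V P)) := rfl
    rw [h1, hρq]
    exact ⟨_, rfl⟩
  obtain ⟨O, hO, hcO, hOq⟩ := exists_isAffineOpen_mem_and_subset
    (U := q ⁻¹ᵁ (chι k i).opensRange) hmem
  obtain ⟨φ', hφ'⟩ := factor_affine O hO (R := RV V P) ρ (by rw [hρcl]; exact hcO)
  let φO : Γ(Y, O) →+* V := (incR hV hP).comp φ'
  have hφO : Spec.map (CommRingCat.ofHom φO) ≫ hO.fromSpec = c := by
    rw [← hincρ, ← hφ', ← Category.assoc, ← Spec.map_comp]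
    rfl
  refine ⟨O, hO, φO, hcO, hφO, fun a => (φ' a).2, ?_⟩
  -- the ratios are regular on `O`
  have hrange : Set.range (hO.fromSpec ≫ q) ⊆ Set.range (chι k i) := by
    rintro _ ⟨x, rfl⟩
    have h1 : hO.fromSpec x ∈ Set.range hO.fromSpec := ⟨x, rfl⟩
    rw [hO.range_fromSpec] at h1
    exact hOq h1
  let lam : Spec Γ(Y, O) ⟶
      Spec (CommRingCat.of (Away (gr k N) (MvPolynomial.X i : MvPolynomial (Fin N) k))) :=
    IsOpenImmersion.lift (chι k i) (hO.fromSpec ≫ q) hrange
  have hlam : lam ≫ chι k i = hO.fromSpec ≫ q := IsOpenImmersion.lift_fac _ _ _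
  let α : Away (gr k N) (MvPolynomial.X i : MvPolynomial (Fin N) k) →+* Γ(Y, O) :=
    (Spec.preimage lam).hom
  have hα : Spec.map (CommRingCat.ofHom α) = lam := by
    rw [CommRingCat.ofHom_hom, Spec.map_preimage]
  have hαθ : ((algebraMap V K).comp φO).comp α = θK p i hi := by
    have h1 : Spec.map (CommRingCat.ofHom (((algebraMap V K).comp φO).comp α)) =
        Spec.map (CommRingCat.ofHom (θK p i hi)) := by
      rw [← cancel_mono (chι k i)]
      have h2 : Spec.map (CommRingCat.ofHom (((algebraMap V K).comp φO).comp α)) =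
          incV V ≫ Spec.map (CommRingCat.ofHom φO) ≫ Spec.map (CommRingCat.ofHom α) := by
        rw [← Spec.map_comp, ← Spec.map_comp]
        rfl
      rw [h2, hα, Category.assoc, Category.assoc, hlam, reassoc_of% hφO, reassoc_of% hc, hηq]
      exact ptK_eq p i₀ i hi₀ hi
    exact congrArg CommRingCat.Hom.hom (Spec.map_injective h1)
  let B : Subalgebra k K := { ((algebraMap V K).comp φO).range with
    algebraMap_mem' := fun c => ⟨α (ck i c), by
      have h1 := DFunLike.congr_fun hαθ (ck i c)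
      rw [θK_ck] at h1
      exact h1⟩ }
  have hB : ch P (p i) ≤ B := by
    rw [ch_le_iff]
    intro x hx
    rw [← hp] at hx
    induction hx using Submodule.span_induction with
    | mem x hx =>
      obtain ⟨j, rfl⟩ := hx
      obtain ⟨a, ha⟩ := exists_θK (k := k) p i j hi
      refine ⟨α a, ?_⟩
      have h1 := DFunLike.congr_fun hαθ a
      rw [ha] at h1
      exact h1
    | zero => rw [zero_div]; exact B.zero_mem
    | add x y _ _ hx hy => rw [add_div]; exact B.add_mem hx hy
    | smul c x _ hx => rw [smul_div_assoc]; exact B.smul_mem hx c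
  intro r hr
  rw [RV_eq hmin] at hr
  obtain ⟨a, ha, b, hb, hvb, rfl⟩ := hr
  obtain ⟨a', ha'⟩ := hB ha
  obtain ⟨b', hb'⟩ := hB hb
  have ha'' : (φO a' : K) = a := ha'
  have hb'' : (φO b' : K) = b := hb'
  exact ⟨a', b', by rw [hb'']; exact hvb, by rw [ha'', hb'']⟩

end

end Pool.Agent.TGS
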