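import Pool.Agent.Lib.TG_h67.Resolve

/-!
# TG, schemes: resolution of singularities of the schemes of dimension `n` from `[n]`
-/

set_option autoImplicit false

open AlgebraicGeometry CategoryTheory Limits

namespace Pool.Agent.TGS

open Pool.Agent.LU1G (IsGen cpt incV SmoothAt factor_affine frac_affine)
open Pool.Agent.LU2G (gen_unique lift_unique smooth_of_isPar const_mem consts IsSmoothAt)
open Pool.Agent.LU2 (locV IsPar)
open Pool.Agent.ALLQC (exists_centre)
open Pool.Agent.TG

section

variable {k K : Type} [Field k] [Field K] [Algebra k K]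

/-- A finite family of models is dominated by a model. -/
theorem exists_dom_family {ι : Type} (s : Finset ι) (Q : ι → Submodule k K)
    (hQ : ∀ i, IsModel (Q i)) : ∃ P : Submodule k K, IsModel P ∧ ∀ i ∈ s, Dom (Q i) P := by
  classical
  induction s using Finset.induction_on with
  | empty => exact ⟨1, IsModel.one, fun i hi => by simp at hi⟩
  | insert a s _ ih =>
    obtain ⟨P, hP, h⟩ := ih
    refine ⟨Q a * P, (hQ a).mul hP, fun i hi => ?_⟩
    rcases Finset.mem_insert.1 hi with rfl | hi
    · exact Dom.mul_left (hQ i) hP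
    · exact (h i hi).trans (Dom.mul_right (hQ a) hP)

/-- The coordinate ring of an affine open set, as a finitely generated subalgebra of the function
field. -/
theorem exists_psi_fg {X : Scheme.{0}} [IsIntegral X] (f : X ⟶ Spec (CommRingCat.of k))
    [LocallyOfFiniteType f]
    (η : Spec (CommRingCat.of K) ⟶ X) (hη : IsGen η)
    (hηf : η ≫ f = Spec.map (CommRingCat.ofHom (algebraMap k K))) (W : X.Opens)
    (hW : IsAffineOpen W) (hg : genericPoint X ∈ W) :
    ∃ (ψ : Γ(X, W) →+* K) (B : Subalgebra k K), B.FG ∧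
      Spec.map (CommRingCat.ofHom ψ) ≫ hW.fromSpec = η ∧ ∀ b, b ∈ B ↔ ∃ a, ψ a = b := by
  obtain ⟨ψ, φk, B, -, hψ, hφk, hψk, hB⟩ := exists_psi f η hη hηf W hW hg
  refine ⟨ψ, B, ?_, hψ, hB⟩
  let A : Type := Γ(X, W)
  let _ : CommRing A := inferInstanceAs (CommRing Γ(X, W))
  let φk' : k →+* A := φk
  let _ : Algebra k A := φk'.toAlgebra
  have hft : Algebra.FiniteType k A := by
    have h1 : LocallyOfFiniteType (Spec.map (CommRingCat.ofHom φk)) := by
      rw [hφk]
      infer_instance
    exact (HasRingHomProperty.Spec_iff (P := @LocallyOfFiniteType)).mp h1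
  let ψ' : A →ₐ[k] K := { ψ with commutes' := hψk }
  have h1 := (Algebra.FiniteType.out (R := k) (A := A)).map ψ'
  rw [Algebra.map_top] at h1
  have h2 : B = ψ'.range := by
    ext b
    exact hB b
  rw [h2]
  exact h1

/-- The model of a finitely generated algebra. -/
theorem exists_model_of_fg (B : Subalgebra k K) (hB : B.FG) :
    ∃ Q : Submodule k K, IsModel Q ∧ ∀ V : ValuationSubring K, Ov k V → (∀ b ∈ B, b ∈ V) →
      B ≤ RV V Q := by
  classical
  obtain ⟨S, hS⟩ := hB
  have h1 : (1 : K) ∈ Submodule.span k ((insert 1 S : Finset K) : Set K) :=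
    Submodule.subset_span (Finset.mem_coe.2 (Finset.mem_insert_self _ _))
  have hm : IsModel (Submodule.span k ((insert 1 S : Finset K) : Set K)) := by
    refine ⟨⟨_, rfl⟩, fun h0 => ?_⟩
    rw [h0, Submodule.mem_bot] at h1
    exact one_ne_zero h1
  refine ⟨_, hm, fun V hV hBV => ?_⟩
  have hSB : ∀ s ∈ S, s ∈ B := fun s hs => by
    rw [← hS]
    exact Algebra.subset_adjoin (Finset.mem_coe.2 hs)
  have hmin : IsMin V (Submodule.span k ((insert 1 S : Finset K) : Set K)) 1 := by
    refine isMin_of_span hV h1 one_ne_zero fun g hg => ?_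
    rw [div_one]
    rcases Finset.mem_insert.1 (Finset.mem_coe.1 hg) with rfl | hg
    · exact V.one_mem
    · exact hBV g (hSB g hg)
  rw [← hS]
  refine Algebra.adjoin_le fun s hs => ?_
  have h2 := div_mem_RV hmin (g := s)
    (Submodule.subset_span (Finset.mem_coe.2 (Finset.mem_insert_of_mem (Finset.mem_coe.1 hs))))
  rwa [div_one] at h2

/-- A model which dominates a given quasi-compact integral scheme, locally of finite type. -/
theorem exists_model_dom (X : Scheme.{0}) [IsIntegral X] [CompactSpace X]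
    (f : X ⟶ Spec (CommRingCat.of k)) [LocallyOfFiniteType f]
    (η : Spec (CommRingCat.of K) ⟶ X) (hη : IsGen η)
    (hηf : η ≫ f = Spec.map (CommRingCat.ofHom (algebraMap k K))) :
    ∃ P₀ : Submodule k K, IsModel P₀ ∧ ∀ P : Submodule k K, Dom P₀ P →
      ∀ (V : ValuationSubring K) (c : Spec (CommRingCat.of V) ⟶ X), incV V ≫ c = η →
        ∃ (U : X.Opens) (hU : IsAffineOpen U) (φ : Γ(X, U) →+* V),
          Spec.map (CommRingCat.ofHom φ) ≫ hU.fromSpec = c ∧ ∀ a, (φ a : K) ∈ RV V P := by
  classical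
  have h0 : ∀ x : X, ∃ (U : X.Opens) (_ : IsAffineOpen U), x ∈ U := by
    intro x
    obtain ⟨U, hU, hxU, -⟩ := exists_isAffineOpen_mem_and_subset
      (x := x) (U := ⊤) (Set.mem_univ _)
    exact ⟨U, hU, hxU⟩
  choose U hU hxU using h0
  have hgU : ∀ x, genericPoint X ∈ U x := fun x =>
    ((genericPoint_spec X).mem_open_set_iff (U x).isOpen).mpr ⟨x, trivial, hxU x⟩
  obtain ⟨t, ht⟩ := CompactSpace.elim_nhds_subcover (fun x : X => (U x : Set X))
    (fun x => (U x).isOpen.mem_nhds (hxU x))
  choose ψ B hBfg hψ hB using fun x => exists_psi_fg f η hη hηf (U x) (hU x) (hgU x)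
  choose Q hQ hQB using fun x => exists_model_of_fg (B x) (hBfg x)
  obtain ⟨P₀, hP₀, hdom⟩ := exists_dom_family t Q hQ
  refine ⟨P₀, hP₀, fun P hP V c hc => ?_⟩
  have hV : Ov k V := const_mem f η hηf V c hc
  have h1 : c (cpt V) ∈ ⋃ x ∈ t, (U x : Set X) := by
    rw [ht]
    trivial
  rw [Set.mem_iUnion₂] at h1
  obtain ⟨x, hx, hcx⟩ := h1
  obtain ⟨φ, hφ⟩ := factor_affine (U x) (hU x) c hcx
  refine ⟨U x, hU x, φ, hφ, fun a => ?_⟩
  have h2 : (algebraMap V K).comp φ = ψ x := by
    have h3 : Spec.map (CommRingCat.ofHom ((algebraMap V K).comp φ)) =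
        Spec.map (CommRingCat.ofHom (ψ x)) := by
      rw [← cancel_mono (hU x).fromSpec, hψ, ← hc, ← hφ, ← Category.assoc, ← Spec.map_comp]
      rfl
    exact congrArg CommRingCat.Hom.hom (Spec.map_injective h3)
  have h4 : ∀ b ∈ B x, b ∈ V := by
    intro b hb
    obtain ⟨a, rfl⟩ := (hB x b).1 hb
    rw [← h2]
    exact (φ a).2
  refine hP V hV (hdom x hx V hV (hQB x V hV h4 ?_))
  rw [hB]
  exact ⟨a, by rw [← h2]; rfl⟩

end

section

variable {k : Type} [Field k]

/-- Resolution of singularities of the integral quasi-compact schemes, locally of finite type and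
of dimension `n` over `k`, from the statement `[n]`. -/
theorem resolution_of_WL [IsAlgClosed k] {n : ℕ} (h : WL k n) (X : Scheme.{0}) [IsIntegral X]
    [CompactSpace X] (f : X ⟶ Spec (CommRingCat.of k)) [LocallyOfFiniteType f]
    (hn : @Algebra.trdeg k X.functionField _ _ (consts f).toAlgebra = n) :
    ∃ (Y : Scheme.{0}) (π : Y ⟶ X), IsIntegral Y ∧ IsProper π ∧
      AlgebraicGeometry.Smooth (π ≫ f) ∧ ∃ U : X.Opens, Dense (U : Set X) ∧ IsIso (π ∣_ U) := by
  let _ : Algebra k X.functionField := (consts f).toAlgebra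
  have hη : IsGen (K := X.functionField) (X.fromSpecStalk (genericPoint X)) := by
    refine ⟨RingEquiv.refl _, ?_⟩
    have h1 : (CommRingCat.ofHom (RingEquiv.refl X.functionField).toRingHom) =
        𝟙 (CommRingCat.of X.functionField) := rfl
    rw [h1, Spec.map_id]
    exact (Category.id_comp _).symm
  have hηf : X.fromSpecStalk (genericPoint X) ≫ f =
      Spec.map (CommRingCat.ofHom (algebraMap k X.functionField)) := by
    have h1 : CommRingCat.ofHom (algebraMap k X.functionField) =
        Spec.preimage (X.fromSpecStalk (genericPoint X) ≫ f) := rfl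
    rw [h1, Spec.map_preimage]
  have hK : (⊤ : IntermediateField k X.functionField).FG :=
    LU2H.fg_functionField (K := X.functionField) f (X.fromSpecStalk (genericPoint X)) hη hηf
  obtain ⟨P₀, hP₀, hdom⟩ := exists_model_dom (K := X.functionField) X f
    (X.fromSpecStalk (genericPoint X)) hη hηf
  obtain ⟨P, hP, hPP, hlog⟩ := h X.functionField hK hn P₀ hP₀ ∅ (by simp)
  obtain ⟨Y, hY, π, ηY, hπ, hsm, -, -, ⟨W, hW, hiso⟩, -⟩ := exists_resolution_of_model
    (K := X.functionField) X f (X.fromSpecStalk (genericPoint X)) hη hηf P hP (hdom P hPP)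
    (fun V hV => exists_isPar_of_logReg hP hlog V hV)
  exact ⟨Y, π, hY, hπ, hsm, W, W.isOpen.dense ⟨_, hW⟩, hiso⟩

end

end Pool.Agent.TGS
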