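import Pool.Agent.Lib.ALL_h67.Join

/-!
# TG, schemes: closures of graphs
-/

set_option autoImplicit false

open AlgebraicGeometry CategoryTheory Limits

namespace Pool.Agent.TGS

open Pool.Agent.LU1G (IsGen cpt incV isIso_of_isPullback_id isIso_restrict_comp)
open Pool.Agent.ALLQC (isIntegral_image specializes_of_isIso)

/-- A section over an open set that passes through the generic point is an inverse. -/
theorem isIso_of_section {X Y T : Scheme.{0}} [IsIntegral Y] (π : Y ⟶ X) [IsSeparated π]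
    (ηY : T ⟶ Y) [IsDominant ηY] (W : X.Opens) (s : W.toScheme ⟶ Y) (hs : s ≫ π = W.ι)
    (ηW : T ⟶ W.toScheme) (hη : ηW ≫ s = ηY) : IsIso (π ∣_ W) := by
  have hr : Set.range s ⊆ Set.range (π ⁻¹ᵁ W).ι := by
    rw [Scheme.Opens.range_ι]
    rintro _ ⟨x, rfl⟩
    change π (s x) ∈ W
    have h1 : π (s x) = (s ≫ π) x := rfl
    rw [h1, hs]
    exact x.2
  let s₁ : W.toScheme ⟶ (π ⁻¹ᵁ W).toScheme := IsOpenImmersion.lift (π ⁻¹ᵁ W).ι s hr
  have hs₁ : s₁ ≫ (π ⁻¹ᵁ W).ι = s := IsOpenImmersion.lift_fac _ _ _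
  have h1 : s₁ ≫ (π ∣_ W) = 𝟙 _ := by
    rw [← cancel_mono W.ι, Category.assoc, morphismRestrict_ι, ← Category.assoc, hs₁, hs,
      Category.id_comp]
  let ηE : T ⟶ (π ⁻¹ᵁ W).toScheme := ηW ≫ s₁
  have hηE : ηE ≫ (π ⁻¹ᵁ W).ι = ηY := by
    rw [Category.assoc, hs₁, hη]
  have hdom : IsDominant ηE := by
    refine ⟨?_⟩
    have h2 : DenseRange ηY := ηY.denseRange
    have h3 : (ηY : T → Y) = (π ⁻¹ᵁ W).ι ∘ ηE := by
      rw [← hηE]
      rfl
    rw [denseRange_iff_closure_range,
      (π ⁻¹ᵁ W).ι.isOpenEmbedding.isInducing.closure_eq_preimage_closure_image, ← Set.range_comp,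
      ← h3, h2.closure_range, Set.preimage_univ]
  have hW : Nonempty (π ⁻¹ᵁ W).toScheme ∨ ¬ Nonempty (π ⁻¹ᵁ W).toScheme := em _
  have hred : IsReduced (π ⁻¹ᵁ W).toScheme := inferInstance
  have h4 : (π ∣_ W) ≫ s₁ = 𝟙 _ := by
    refine ext_of_isDominant_of_isSeparated (π ∣_ W) ?_ ηE ?_
    · rw [Category.assoc, h1, Category.comp_id, Category.id_comp]
    · have h5 : ηE ≫ (π ∣_ W) = ηW := by
        rw [Category.assoc, h1, Category.comp_id]
      rw [← Category.assoc, h5, Category.comp_id]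
  exact ⟨s₁, h4, h1⟩

/-- A morphism from an affine integral scheme that extends the generic point factors through the
closure of the generic point. -/
theorem exists_factor_image {K R : Type} [Field K] [CommRing R] [IsDomain R] (j : R →+* K)
    (hj : Function.Injective j) {P : Scheme.{0}} (g : Spec (CommRingCat.of K) ⟶ P)
    (ρ : Spec (CommRingCat.of R) ⟶ P) (h : Spec.map (CommRingCat.ofHom j) ≫ ρ = g) :
    ∃ ρ' : Spec (CommRingCat.of R) ⟶ g.image, ρ' ≫ g.imageι = ρ ∧
      Spec.map (CommRingCat.ofHom j) ≫ ρ' = g.toImage := by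
  have hdom : IsDominant (Spec.map (CommRingCat.ofHom j)) := by
    refine ⟨?_⟩
    change DenseRange (PrimeSpectrum.comap j)
    rw [PrimeSpectrum.denseRange_comap_iff_ker_le_nilRadical, (RingHom.injective_iff_ker_eq_bot j).1 hj]
    exact bot_le
  have hst : IsSchemeTheoreticallyDominant (Spec.map (CommRingCat.ofHom j)) :=
    IsSchemeTheoreticallyDominant.of_isDominant _
  have hker : g.ker = ρ.ker := by
    rw [← h, Scheme.Hom.ker_comp, hst.ker_eq_bot, Scheme.IdealSheafData.map_bot]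
  have hle : g.imageι.ker ≤ ρ.ker := by
    rw [← hker]
    exact (Scheme.IdealSheafData.ker_subschemeι _).le
  refine ⟨IsClosedImmersion.lift g.imageι ρ hle, IsClosedImmersion.lift_fac _ _ _, ?_⟩
  rw [← cancel_mono g.imageι, Category.assoc, IsClosedImmersion.lift_fac, h,
    Scheme.Hom.toImage_imageι]

end Pool.Agent.TGS
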