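import Pool.Agent.Lib.TG_h67.PSpaceK
import Pool.Agent.Lib.TG_h67.Graph
import Pool.Agent.Lib.LU2G.ChainS

/-!
# TG, schemes: auxiliary statements on the local rings of a model
-/

set_option autoImplicit false

open AlgebraicGeometry CategoryTheory Limits

namespace Pool.Agent.TGS

open Pool.Agent.LU1G (IsGen cpt incV factor_affine frac_affine)
open Pool.Agent.TG (Ov IsMin IsModel ch RV RV_eq RV_le RV_inv)

section

variable {k K : Type} [Field k] [Field K] [Algebra k K] {V : ValuationSubring K}
  {P : Submodule k K}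

/-- The inclusion of the local ring of a model. -/
def incR (hV : Ov k V) (hP : IsModel P) : RV V P →+* V :=
  (RV V P).val.toRingHom.codRestrict V fun a => RV_le hV hP a a.2

theorem incR_coe (hV : Ov k V) (hP : IsModel P) (a : RV V P) : ((incR hV hP a : V) : K) = a := rfl

theorem isUnit_iff (hV : Ov k V) (hP : IsModel P) (a : RV V P) :
    IsUnit a ↔ V.valuation (a : K) = 1 := by
  constructor
  · intro h
    have h1 : IsUnit (incR hV hP a) := h.map _
    exact (ValuationSubring.valuation_eq_one_iff V _).1 h1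
  · intro h
    have h0 : (a : K) ≠ 0 := by
      intro h'
      rw [h', map_zero] at h
      exact zero_ne_one h
    refine IsUnit.of_mul_eq_one ⟨(a : K)⁻¹, RV_inv a.2 h⟩ ?_
    apply Subtype.ext
    exact mul_inv_cancel₀ h0

theorem isLocalRing_RV (hV : Ov k V) (hP : IsModel P) : IsLocalRing (RV V P) := by
  have hlt : ∀ a : RV V P, a ∈ nonunits (RV V P) ↔ V.valuation (a : K) < 1 := by
    intro a
    rw [mem_nonunits_iff, isUnit_iff hV hP]
    have h1 : V.valuation (a : K) ≤ 1 := (V.valuation_le_one_iff _).2 (RV_le hV hP a a.2)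
    exact ⟨fun h => lt_of_le_of_ne h1 h, fun h => h.ne⟩
  refine IsLocalRing.of_nonunits_add fun a b ha hb => ?_
  rw [hlt] at ha hb ⊢
  exact (Valuation.map_add _ _ _).trans_lt (max_lt ha hb)

theorem isLocalHom_incR (hV : Ov k V) (hP : IsModel P) : IsLocalHom (incR hV hP) := by
  refine ⟨fun a ha => ?_⟩
  rw [isUnit_iff hV hP]
  exact (ValuationSubring.valuation_eq_one_iff V _).1 ha

/-- Lifting a homomorphism along an injective one. -/
theorem exists_lift {A R L : Type} [CommRing A] [CommRing R] [Field L] (ψ : A →+* L)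
    (hψ : Function.Injective ψ) (τ : R →+* L) (h : ∀ r, ∃ a, ψ a = τ r) :
    ∃ β : R →+* A, ψ.comp β = τ := by
  let e : A ≃+* ψ.range :=
    RingEquiv.ofBijective ψ.rangeRestrict
      ⟨fun a b h => hψ (congrArg Subtype.val h), ψ.rangeRestrict_surjective⟩
  refine ⟨e.symm.toRingHom.comp (τ.codRestrict ψ.range fun r => h r), ?_⟩
  ext r
  have h1 : e (e.symm (τ.codRestrict ψ.range (fun r => h r) r)) =
    τ.codRestrict ψ.range (fun r => h r) r := e.apply_symm_apply _
  exact congrArg Subtype.val h1

/-- Equality of morphisms to the spectrum of a field. -/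
theorem spec_ext {R L : Type} [CommRing R] [Field L] (j : R →+* L) (hj : Function.Injective j)
    {S : Type} [CommRing S] (a b : Spec (CommRingCat.of R) ⟶ Spec (CommRingCat.of S))
    (h : Spec.map (CommRingCat.ofHom j) ≫ a = Spec.map (CommRingCat.ofHom j) ≫ b) : a = b := by
  have e : ∀ c : Spec (CommRingCat.of R) ⟶ Spec (CommRingCat.of S),
      c = Spec.map (CommRingCat.ofHom (Spec.preimage c).hom) := by
    intro c
    rw [CommRingCat.ofHom_hom, Spec.map_preimage]
  rw [e a, e b] at h ⊢
  rw [← Spec.map_comp, ← Spec.map_comp] at h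
  have h1 := congrArg CommRingCat.Hom.hom (Spec.map_injective h)
  have h2 : (Spec.preimage a).hom = (Spec.preimage b).hom := by
    ext x
    exact hj (DFunLike.congr_fun h1 x)
  rw [h2]

end

end Pool.Agent.TGS
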