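import Pool.Agent.Lib.TG_h67.Final

/-!
# TG, schemes: closed points, zero-dimensional valuation rings and stalks
-/

set_option autoImplicit false

open AlgebraicGeometry CategoryTheory Limits

namespace Pool.Agent.TGS

open Pool.Agent.LU1G (IsGen cpt incV SmoothAt factor_affine frac_affine)
open Pool.Agent.LU2G (gen_unique lift_unique smooth_of_isPar const_mem consts IsSmoothAt)
open Pool.Agent.LU2 (locV IsPar Mono)
open Pool.Agent.TG

section

variable {k K : Type} [Field k] [Field K] [Algebra k K]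

/-- Every closed point is the centre of a zero-dimensional valuation ring. -/
theorem exists_zdim_at [IsAlgClosed k] {Y : Scheme.{0}} [IsIntegral Y]
    (g : Y ⟶ Spec (CommRingCat.of k)) [LocallyOfFiniteType g]
    (η : Spec (CommRingCat.of K) ⟶ Y) (hη : IsGen η)
    (hηg : η ≫ g = Spec.map (CommRingCat.ofHom (algebraMap k K))) (y : Y) (hy : IsClosed {y}) :
    ∃ (V : ValuationSubring K) (c : Spec (CommRingCat.of V) ⟶ Y), incV V ≫ c = η ∧
      c (cpt V) = y ∧ ZDim k V := by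
  obtain ⟨O, hO, hyO, -⟩ := exists_isAffineOpen_mem_and_subset
    (x := y) (U := ⊤) (Set.mem_univ _)
  have hgO : genericPoint Y ∈ O :=
    ((genericPoint_spec Y).mem_open_set_iff O.isOpen).mpr ⟨y, trivial, hyO⟩
  obtain ⟨ψ, B, hBfg, hψ, hB⟩ := exists_psi_fg g η hη hηg O hO hgO
  have hinj : Function.Injective ψ := by
    have h1 := frac_affine O hO ⟨_, hgO⟩ η hη ψ hψ
    let _ : Algebra Γ(Y, O) K := ψ.toAlgebra
    exact IsFractionRing.injective Γ(Y, O) K
  let e₀ : Γ(Y, O) →+* B := ψ.codRestrict B fun a => (hB _).2 ⟨a, rfl⟩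
  have he₀ : Function.Bijective e₀ := by
    refine ⟨fun a b hab => hinj (congrArg Subtype.val hab), fun b => ?_⟩
    obtain ⟨a, ha⟩ := (hB b).1 b.2
    exact ⟨a, Subtype.ext ha⟩
  let e : Γ(Y, O) ≃+* B := RingEquiv.ofBijective e₀ he₀
  have hM : (hO.primeIdealOf ⟨y, hyO⟩).asIdeal.IsMaximal :=
    hO.primeIdealOf_isMaximal_of_isClosed ⟨y, hyO⟩ hy
  let m : Ideal B := Ideal.comap (e.symm : B →+* Γ(Y, O)) (hO.primeIdealOf ⟨y, hyO⟩).asIdeal
  have hm : m.IsMaximal := Ideal.comap_isMaximal_of_surjective _ e.symm.surjective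
  obtain ⟨W, hW, hBW, hmW⟩ := exists_zdim_maximal B hBfg m hm
  let φ : Γ(Y, O) →+* W := ψ.codRestrict W fun a => hBW _ ((hB _).2 ⟨a, rfl⟩)
  refine ⟨W, Spec.map (CommRingCat.ofHom φ) ≫ hO.fromSpec, ?_, ?_, hW⟩
  · rw [← hψ, ← Category.assoc, ← Spec.map_comp]
    rfl
  · have h1 : Spec.map (CommRingCat.ofHom φ) (cpt W) = hO.primeIdealOf ⟨y, hyO⟩ := by
      apply PrimeSpectrum.ext
      ext a
      have h2 : a ∈ (Spec.map (CommRingCat.ofHom φ) (cpt W)).asIdeal ↔
          φ a ∈ IsLocalRing.maximalIdeal W := Iff.rfl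
      rw [h2, ValuationSubring.valuation_lt_one_iff]
      have h3 : W.valuation ((φ a : W) : K) < 1 ↔ e a ∈ m := (hmW (e a)).symm
      rw [h3]
      have h4 : e a ∈ m ↔ e.symm (e a) ∈ (hO.primeIdealOf ⟨y, hyO⟩).asIdeal := Iff.rfl
      rw [h4, e.symm_apply_apply]
    rw [Scheme.Hom.comp_apply, h1]
    exact hO.fromSpec_primeIdealOf ⟨y, hyO⟩

/-- The stalk at the centre of `V`, as a subring of `K`. -/
theorem exists_stalk_emb {Y : Scheme.{0}} [IsIntegral Y] (η : Spec (CommRingCat.of K) ⟶ Y)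
    (hη : IsGen η) (V : ValuationSubring K) (c : Spec (CommRingCat.of V) ⟶ Y)
    (hc : incV V ≫ c = η) (O : Y.Opens) (hO : IsAffineOpen O) (φ : Γ(Y, O) →+* V)
    (hcO : c (cpt V) ∈ O) (hφ : Spec.map (CommRingCat.ofHom φ) ≫ hO.fromSpec = c)
    (R : Subalgebra k K) (h1 : ∀ a, (φ a : K) ∈ R)
    (h2 : ∀ r ∈ R, ∃ a b, V.valuation (φ b : K) = 1 ∧ r = (φ a : K) / φ b)
    (h3 : ∀ r ∈ R, V.valuation r = 1 → r⁻¹ ∈ R) :
    ∃ ι : Y.presheaf.stalk (c (cpt V)) →+* K,
      Spec.map (CommRingCat.ofHom ι) ≫ Y.fromSpecStalk (c (cpt V)) = η ∧ Function.Injective ι ∧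
      (∀ x, x ∈ R ↔ ∃ a, ι a = x) ∧ (∀ a, V.valuation (ι a) ≤ 1) ∧
      ∀ a, a ∈ IsLocalRing.maximalIdeal (Y.presheaf.stalk (c (cpt V))) ↔
        V.valuation (ι a) < 1 := by
  let s : Y.presheaf.stalk (c (cpt V)) →+* V := (Scheme.stalkClosedPointTo c).hom
  have hs : IsLocalHom s := Scheme.isLocalHom_stalkClosedPointTo c
  have hsc : Spec.map (CommRingCat.ofHom s) ≫ Y.fromSpecStalk (c (cpt V)) = c :=
    Scheme.Spec_stalkClosedPointTo_fromSpecStalk c
  let γ : Γ(Y, O) →+* Y.presheaf.stalk (c (cpt V)) := (Y.presheaf.germ O _ hcO).hom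
  have hγ : ∀ a, s (γ a) = φ a := by
    have h4 : Spec.map (CommRingCat.ofHom (s.comp γ)) = Spec.map (CommRingCat.ofHom φ) := by
      rw [← cancel_mono hO.fromSpec, hφ]
      have h5 : Spec.map (CommRingCat.ofHom (s.comp γ)) =
          Spec.map (CommRingCat.ofHom s) ≫ Spec.map (CommRingCat.ofHom γ) := by
        rw [← Spec.map_comp]
        rfl
      have h6 : Spec.map (CommRingCat.ofHom γ) ≫ hO.fromSpec = Y.fromSpecStalk (c (cpt V)) := by
        rw [← hO.fromSpecStalk_eq_fromSpecStalk hcO]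
        rfl
      rw [h5, Category.assoc, h6, hsc]
    have h7 : s.comp γ = φ := congrArg CommRingCat.Hom.hom (Spec.map_injective h4)
    intro a
    rw [← h7]
    rfl
  let ι : Y.presheaf.stalk (c (cpt V)) →+* K := (algebraMap V K).comp s
  have hι : ∀ a, ι a = (s a : K) := fun _ => rfl
  have hιγ : ∀ a, ι (γ a) = (φ a : K) := fun a => by rw [hι, hγ]
  let ψ : Γ(Y, O) →+* K := (algebraMap V K).comp φ
  have hψ : Spec.map (CommRingCat.ofHom ψ) ≫ hO.fromSpec = η := by
    rw [← hc, ← hφ, ← Category.assoc, ← Spec.map_comp]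
    rfl
  have hinj : Function.Injective ψ := by
    have h4 := frac_affine O hO ⟨_, hcO⟩ η hη ψ hψ
    let _ : Algebra Γ(Y, O) K := ψ.toAlgebra
    exact IsFractionRing.injective Γ(Y, O) K
  have hloc : ∀ z : Y.presheaf.stalk (c (cpt V)), ∃ a b : Γ(Y, O), IsUnit (γ b) ∧
      z * γ b = γ a := by
    intro z
    let _ := TopCat.Presheaf.algebra_section_stalk Y.presheaf (⟨c (cpt V), hcO⟩ : O)
    have h4 := hO.isLocalization_stalk ⟨c (cpt V), hcO⟩
    obtain ⟨⟨a, b⟩, hab⟩ := IsLocalization.surj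
      (hO.primeIdealOf ⟨c (cpt V), hcO⟩).asIdeal.primeCompl z
    exact ⟨a, b, IsLocalization.map_units (M := (hO.primeIdealOf
      ⟨c (cpt V), hcO⟩).asIdeal.primeCompl) _ b, hab⟩
  have hval : ∀ a, V.valuation (ι a) ≤ 1 := fun a => (V.valuation_le_one_iff _).2 (s a).2
  have hmax : ∀ a, a ∈ IsLocalRing.maximalIdeal (Y.presheaf.stalk (c (cpt V))) ↔
      V.valuation (ι a) < 1 := by
    intro a
    have h4 : (IsLocalRing.maximalIdeal V).comap s =
        IsLocalRing.maximalIdeal (Y.presheaf.stalk (c (cpt V))) :=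
      ((IsLocalRing.local_hom_TFAE s).out 0 4).1 hs
    rw [hι, ← ValuationSubring.valuation_lt_one_iff, ← Ideal.mem_comap, h4]
  have hunit : ∀ a, V.valuation (ι a) = 1 → IsUnit a := by
    intro a ha
    by_contra h
    have h4 := (hmax a).1 ((IsLocalRing.mem_maximalIdeal a).2 h)
    rw [ha] at h4
    exact lt_irrefl _ h4
  have hone : ∀ a, IsUnit a → V.valuation (ι a) = 1 := by
    intro a ha
    refine le_antisymm (hval a) (not_lt.1 fun h => ?_)
    exact (IsLocalRing.mem_maximalIdeal a).1 ((hmax a).2 h) ha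
  refine ⟨ι, ?_, ?_, ?_, hval, hmax⟩
  · have h4 : Spec.map (CommRingCat.ofHom ι) = incV V ≫ Spec.map (CommRingCat.ofHom s) := by
      rw [← Spec.map_comp]
      rfl
    rw [h4, Category.assoc, hsc, hc]
  · rw [injective_iff_map_eq_zero]
    intro z hz
    obtain ⟨a, b, hb, hab⟩ := hloc z
    have h4 : ψ a = 0 := by
      change ((φ a : V) : K) = 0
      rw [← hιγ, ← hab, map_mul, hz, zero_mul]
    have h5 : a = 0 := hinj (by rw [h4, map_zero])
    rw [h5, map_zero] at hab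
    exact (hb.mul_left_eq_zero).1 hab
  · intro x
    constructor
    · intro hx
      obtain ⟨a, b, hb, hab⟩ := h2 x hx
      have hub : IsUnit (γ b) := hunit _ (by rw [hιγ]; exact hb)
      obtain ⟨u, hu⟩ := hub
      refine ⟨γ a * ((u⁻¹ : (Y.presheaf.stalk (c (cpt V)))ˣ) : Y.presheaf.stalk (c (cpt V))), ?_⟩
      have h4 : ι ((u⁻¹ : (Y.presheaf.stalk (c (cpt V)))ˣ) : Y.presheaf.stalk (c (cpt V))) *
          (φ b : K) = 1 := by
        rw [← hιγ, ← hu, ← map_mul, Units.inv_mul, map_one]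
      rw [map_mul, hιγ, hab, div_eq_mul_inv, eq_inv_of_mul_eq_one_left h4]
    · rintro ⟨z, rfl⟩
      obtain ⟨a, b, hb, hab⟩ := hloc z
      have h4 : ι z * (φ b : K) = φ a := by rw [← hιγ, ← map_mul, hab, hιγ]
      have h5 : V.valuation (φ b : K) = 1 := by rw [← hιγ]; exact hone _ hb
      have h6 : (φ b : K) ≠ 0 := by
        intro h0
        rw [h0, map_zero] at h5
        exact zero_ne_one h5
      have h7 : ι z = (φ a : K) * (φ b : K)⁻¹ := by rw [← h4, mul_inv_cancel_right₀ h6]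
      rw [h7]
      exact R.mul_mem (h1 a) (h3 _ (h1 b) h5)

end

end Pool.Agent.TGS
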