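import Pool.Agent.Lib.TG_h67.Log1

/-!
# TG, schemes: regular parameters at the closed points, generators of ideal sheaves
-/

set_option autoImplicit false

open AlgebraicGeometry CategoryTheory Limits

namespace Pool.Agent.TGS

open Pool.Agent.LU1G (IsGen cpt incV SmoothAt factor_affine frac_affine)
open Pool.Agent.LU2G (gen_unique lift_unique smooth_of_isPar const_mem consts IsSmoothAt)
open Pool.Agent.LU2 (locV IsPar Mono)
open Pool.Agent.TG

section

variable {k K : Type} [Field k] [Field K] [Algebra k K]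

/-- Regular parameters of the stalks at the closed points, from a regular model. -/
theorem exists_par_at [IsAlgClosed k] {n : ℕ} {P : Submodule k K} {Z : Set K}
    (hlog : LogReg n P Z) {Y : Scheme.{0}} [IsIntegral Y]
    (g : Y ⟶ Spec (CommRingCat.of k)) [LocallyOfFiniteType g]
    (η : Spec (CommRingCat.of K) ⟶ Y) (hη : IsGen η)
    (hηg : η ≫ g = Spec.map (CommRingCat.ofHom (algebraMap k K)))
    (hloc : ∀ (V : ValuationSubring K) (c : Spec (CommRingCat.of V) ⟶ Y), incV V ≫ c = η →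
      Ov k V → ∃ (O : Y.Opens) (hO : IsAffineOpen O) (φ : Γ(Y, O) →+* V), c (cpt V) ∈ O ∧
          Spec.map (CommRingCat.ofHom φ) ≫ hO.fromSpec = c ∧ (∀ a, (φ a : K) ∈ RV V P) ∧
          ∀ r ∈ RV V P, ∃ a b, V.valuation (φ b : K) = 1 ∧ r = (φ a : K) / φ b)
    (y : Y) (hy : IsClosed {y}) :
    ∃ (V : ValuationSubring K) (ι : Y.presheaf.stalk y →+* K) (t : Fin n → Y.presheaf.stalk y),
      ZDim k V ∧ Spec.map (CommRingCat.ofHom ι) ≫ Y.fromSpecStalk y = η ∧
      Function.Injective ι ∧ (∀ x, x ∈ RV V P ↔ ∃ a, ι a = x) ∧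
      (∀ a, V.valuation (ι a) ≤ 1) ∧
      Ideal.span (Set.range t) = IsLocalRing.maximalIdeal (Y.presheaf.stalk y) ∧
      ∀ z ∈ Z, V.valuation z ≤ 1 → ∃ (e : Fin n → ℕ) (u : Y.presheaf.stalk y), IsUnit u ∧
        z = ι (u * ∏ i, t i ^ e i) := by
  obtain ⟨V, c, hc, rfl, hV⟩ := exists_zdim_at g η hη hηg y hy
  obtain ⟨O, hO, φ, hcO, hφ, h1, h2⟩ := hloc V c hc hV.ov
  obtain ⟨ι, hι, hinj, hR, hval, hmax⟩ := exists_stalk_emb η hη V c hc O hO φ hcO hφ (RV V P)
    h1 h2 (fun _ h h' => RV_inv h h')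
  obtain ⟨t, ht, hm⟩ := hlog V hV
  choose τ hτ using fun i => (hR (t i)).1 (ht.par.mem i)
  have hunit : ∀ a, V.valuation (ι a) = 1 → IsUnit a := by
    intro a ha
    by_contra h
    have h4 := (hmax a).1 ((IsLocalRing.mem_maximalIdeal a).2 h)
    rw [ha] at h4
    exact lt_irrefl _ h4
  refine ⟨V, ι, τ, hV, hι, hinj, hR, hval, ?_, ?_⟩
  · apply le_antisymm
    · rw [Ideal.span_le]
      rintro _ ⟨i, rfl⟩
      rw [SetLike.mem_coe, hmax, hτ]
      exact ht.par.pos i
    · intro a ha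
      obtain ⟨b, hb, hab⟩ := ht.par.gen (ι a) ((hR _).2 ⟨a, rfl⟩) ((hmax a).1 ha)
      choose β hβ using fun i => (hR (b i)).1 (hb i)
      have h3 : a = ∑ i, β i * τ i := by
        apply hinj
        rw [hab, map_sum]
        exact Finset.sum_congr rfl fun i _ => by rw [map_mul, hβ, hτ]
      rw [h3]
      exact Ideal.sum_mem _ fun i _ => Ideal.mul_mem_left _ _ (Ideal.subset_span ⟨i, rfl⟩)
  · intro z hz hz1
    obtain ⟨e, w, hw, hw1, hzw, he, -⟩ := hm z hz
    obtain ⟨ω, hω⟩ := (hR w).1 hw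
    refine ⟨fun i => (e i).toNat, ω, hunit ω (by rw [hω]; exact hw1), ?_⟩
    rw [hzw, map_mul, map_prod, hω, mul_comm]
    congr 1
    refine Finset.prod_congr rfl fun i _ => ?_
    rw [map_pow, hτ, ← zpow_natCast, Int.toNat_of_nonneg (he hz1 i)]

/-- The sections near the image of a point, in the function field. -/
theorem stalk_comp {X Y : Scheme.{0}} (π : Y ⟶ X) (η : Spec (CommRingCat.of K) ⟶ X)
    (ηY : Spec (CommRingCat.of K) ⟶ Y) (hηπ : ηY ≫ π = η) (y : Y)
    (ι : Y.presheaf.stalk y →+* K)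
    (hι : Spec.map (CommRingCat.ofHom ι) ≫ Y.fromSpecStalk y = ηY) (U : X.Opens)
    (hU : IsAffineOpen U) (hyU : π y ∈ U) (ψ : Γ(X, U) →+* K)
    (hψ : Spec.map (CommRingCat.ofHom ψ) ≫ hU.fromSpec = η) (a : Γ(X, U)) :
    ι ((X.presheaf.germ U (π y) hyU ≫ π.stalkMap y).hom a) = ψ a := by
  have h1 : Spec.map (X.presheaf.germ U (π y) hyU ≫ π.stalkMap y) ≫ hU.fromSpec =
      Y.fromSpecStalk y ≫ π := by
    have h2 : Spec.map (X.presheaf.germ U (π y) hyU) ≫ hU.fromSpec = X.fromSpecStalk (π y) := by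
      rw [← hU.fromSpecStalk_eq_fromSpecStalk hyU]
      rfl
    rw [Spec.map_comp, Category.assoc, h2, Scheme.SpecMap_stalkMap_fromSpecStalk]
  have h3 : Spec.map (CommRingCat.ofHom (ι.comp
      (X.presheaf.germ U (π y) hyU ≫ π.stalkMap y).hom)) = Spec.map (CommRingCat.ofHom ψ) := by
    rw [← cancel_mono hU.fromSpec, hψ, ← hηπ, ← hι, Category.assoc, ← h1, ← Category.assoc,
      ← Spec.map_comp]
    rfl
  have h4 : ι.comp (X.presheaf.germ U (π y) hyU ≫ π.stalkMap y).hom = ψ :=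
    congrArg CommRingCat.Hom.hom (Spec.map_injective h3)
  rw [← h4]
  rfl

/-- The stalks of an ideal sheaf. -/
theorem ideal_stalk_eq {X : Scheme.{0}} (I : X.IdealSheafData) (x : X) (U V : X.affineOpens)
    (hU : x ∈ U.1) (hV : x ∈ V.1) :
    (I.ideal U).map (X.presheaf.germ U.1 x hU).hom =
      (I.ideal V).map (X.presheaf.germ V.1 x hV).hom := by
  obtain ⟨W, hW, hxW, hWU⟩ := exists_isAffineOpen_mem_and_subset (x := x) (U := U.1 ⊓ V.1)
    ⟨hU, hV⟩
  have key : ∀ (T : X.affineOpens) (hT : x ∈ T.1), W ≤ T.1 →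
      (I.ideal T).map (X.presheaf.germ T.1 x hT).hom =
        (I.ideal ⟨W, hW⟩).map (X.presheaf.germ W x hxW).hom := by
    intro T hT hle
    have h1 : X.presheaf.germ T.1 x hT =
        X.presheaf.map (homOfLE hle).op ≫ X.presheaf.germ W x hxW :=
      (X.presheaf.germ_res (homOfLE hle) x hxW).symm
    rw [h1, CommRingCat.hom_comp, ← Ideal.map_map]
    congr 1
    exact I.map_ideal (U := ⟨W, hW⟩) (V := T) hle
  rw [key U hU fun z hz => (hWU hz).1, key V hV fun z hz => (hWU hz).2]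

theorem ideal_ne_bot {X : Scheme.{0}} [IsIntegral X] {I : X.IdealSheafData} (hI : I ≠ ⊥)
    (U : X.affineOpens) (hU : (U.1 : Set X).Nonempty) : I.ideal U ≠ ⊥ := by
  intro h0
  apply hI
  have hgU : genericPoint X ∈ U.1 :=
    ((genericPoint_spec X).mem_open_set_iff U.1.isOpen).mpr (by simpa using hU)
  apply Scheme.IdealSheafData.ext
  funext V
  rw [Scheme.IdealSheafData.ideal_bot, Pi.bot_apply, eq_bot_iff]
  intro a ha
  rw [Ideal.mem_bot]
  rcases (V.1 : Set X).eq_empty_or_nonempty with hV | hV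
  · have h1 : V.1 = ⊥ := TopologicalSpace.Opens.ext hV
    have h2 : Subsingleton Γ(X, V.1) := by
      rw [h1]
      infer_instance
    exact Subsingleton.elim _ _
  · have hgV : genericPoint X ∈ V.1 :=
      ((genericPoint_spec X).mem_open_set_iff V.1.isOpen).mpr (by simpa using hV)
    have h1 := ideal_stalk_eq I (genericPoint X) V U hgV hgU
    rw [h0, Ideal.map_bot, Ideal.map_eq_bot_iff_le_ker] at h1
    have h2 : (X.presheaf.germ V.1 (genericPoint X) hgV).hom a = 0 := h1 ha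
    have h3 := germ_injective_of_isIntegral X (genericPoint X) hgV
    exact h3 (by rw [map_zero]; exact h2)

/-- Generators of an ideal sheaf on an affine open set, as elements of the function field. -/
theorem exists_ideal_gens {X : Scheme.{0}} [IsIntegral X] [IsLocallyNoetherian X]
    {I : X.IdealSheafData} (hI : I ≠ ⊥) (U : X.affineOpens) (hU : (U.1 : Set X).Nonempty)
    (ψ : Γ(X, U.1) →+* K) (hψ : Function.Injective ψ) :
    ∃ S : Finset K, S.Nonempty ∧ (∀ s ∈ S, s ≠ 0) ∧ (∀ s ∈ S, ∃ a, ψ a = s) ∧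
      I.ideal U = Ideal.span {a | ψ a ∈ S} := by
  classical
  have h1 : IsNoetherianRing Γ(X, U.1) := IsLocallyNoetherian.component_noetherian U
  obtain ⟨G, hG⟩ := h1.noetherian (I.ideal U)
  have hG' : Ideal.span (G : Set Γ(X, U.1)) = I.ideal U := hG
  refine ⟨(G.image ψ).filter fun x => x ≠ 0, ?_, ?_, ?_, ?_⟩
  · by_contra h2
    rw [Finset.not_nonempty_iff_eq_empty, Finset.filter_eq_empty_iff] at h2
    apply ideal_ne_bot hI U hU
    rw [← hG', Ideal.span_eq_bot]
    intro a ha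
    have h3 := h2 (Finset.mem_image_of_mem ψ (Finset.mem_coe.1 ha))
    rw [not_not] at h3
    exact hψ (by rw [h3, map_zero])
  · intro s hs
    exact (Finset.mem_filter.1 hs).2
  · intro s hs
    obtain ⟨a, -, ha⟩ := Finset.mem_image.1 (Finset.mem_filter.1 hs).1
    exact ⟨a, ha⟩
  · apply le_antisymm
    · rw [← hG', Ideal.span_le]
      intro a ha
      by_cases h0 : ψ a = 0
      · have h2 : a = 0 := hψ (by rw [h0, map_zero])
        rw [h2]
        exact Ideal.zero_mem _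
      · exact Ideal.subset_span
          (Finset.mem_filter.2 ⟨Finset.mem_image_of_mem ψ (Finset.mem_coe.1 ha), h0⟩)
    · rw [Ideal.span_le]
      intro a ha
      obtain ⟨b, hb, hab⟩ := Finset.mem_image.1 (Finset.mem_filter.1 ha).1
      rw [← hψ hab, ← hG']
      exact Ideal.subset_span hb

end

end Pool.Agent.TGS
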