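import Pool.Agent.Lib.TG_h67.Local

/-!
# TG, schemes: the scheme over `X` defined by a model
-/

set_option autoImplicit false

open AlgebraicGeometry CategoryTheory Limits HomogeneousLocalization

namespace Pool.Agent.TGS

open Pool.Agent.LU1G (IsGen cpt incV factor_affine frac_affine)
open Pool.Agent.LU2G (gen_unique lift_unique)
open Pool.Agent.LU2 (locV)
open Pool.Agent.ALLQC (isIntegral_image fromSpec_mem)
open Pool.Agent.TG (Ov IsMin IsModel ch RV RV_eq RV_le RV_inv ch_le_iff)

attribute [local instance] MvPolynomial.gradedAlgebra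

section

variable {k K : Type} [Field k] [Field K] [Algebra k K]

/-- The coordinate ring of an affine open set, as a subalgebra of the function field. -/
theorem exists_psi {X : Scheme.{0}} [IsIntegral X] (f : X ⟶ Spec (CommRingCat.of k))
    (η : Spec (CommRingCat.of K) ⟶ X) (hη : IsGen η)
    (hηf : η ≫ f = Spec.map (CommRingCat.ofHom (algebraMap k K))) (W : X.Opens)
    (hW : IsAffineOpen W) (hg : genericPoint X ∈ W) :
    ∃ (ψ : Γ(X, W) →+* K) (φk : k →+* Γ(X, W)) (B : Subalgebra k K), Function.Injective ψ ∧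
      Spec.map (CommRingCat.ofHom ψ) ≫ hW.fromSpec = η ∧
      Spec.map (CommRingCat.ofHom φk) = hW.fromSpec ≫ f ∧ (∀ c, ψ (φk c) = algebraMap k K c) ∧
      ∀ b, b ∈ B ↔ ∃ a, ψ a = b := by
  obtain ⟨ψ, hψ⟩ := factor_affine W hW (R := K) η (by rw [LU2G.IsGen.range hη]; exact hg)
  let φk : k →+* Γ(X, W) := (Spec.preimage (hW.fromSpec ≫ f)).hom
  have hφk : Spec.map (CommRingCat.ofHom φk) = hW.fromSpec ≫ f := by
    rw [CommRingCat.ofHom_hom, Spec.map_preimage]
  have hψk : ∀ c : k, ψ (φk c) = algebraMap k K c := by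
    have h1 : Spec.map (CommRingCat.ofHom (algebraMap k K)) =
        Spec.map (CommRingCat.ofHom (ψ.comp φk)) := by
      rw [← hηf, ← hψ, Category.assoc, ← hφk, ← Spec.map_comp]
      rfl
    have h2 : algebraMap k K = ψ.comp φk := congrArg CommRingCat.Hom.hom (Spec.map_injective h1)
    intro c
    rw [h2]
    rfl
  have hinj : Function.Injective ψ := by
    have h1 := frac_affine W hW ⟨_, hg⟩ η hη ψ hψ
    let _ : Algebra Γ(X, W) K := ψ.toAlgebra
    exact IsFractionRing.injective Γ(X, W) K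
  refine ⟨ψ, φk, { ψ.range with
    algebraMap_mem' := fun c => ⟨φk c, hψk c⟩ }, hinj, hψ, hφk, hψk, fun b => Iff.rfl⟩

/-- An affine open set on which finitely many elements of the function field are regular. -/
theorem exists_open {X : Scheme.{0}} [IsIntegral X] (η : Spec (CommRingCat.of K) ⟶ X)
    (hη : IsGen η) {N : ℕ} (x : Fin N → K) :
    ∃ (W : X.Opens) (hW : IsAffineOpen W), genericPoint X ∈ W ∧
      ∀ ψ : Γ(X, W) →+* K, Spec.map (CommRingCat.ofHom ψ) ≫ hW.fromSpec = η →
        ∀ j, ∃ a, ψ a = x j := by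
  obtain ⟨e, he⟩ := hη
  choose U hU s hs using fun j => X.presheaf.exists_germ_eq (x := genericPoint X) (e.symm (x j))
  let U' : X.Opens := ⟨⋂ j, (U j : Set X), isOpen_iInter_of_finite fun j => (U j).isOpen⟩
  have hinf : genericPoint X ∈ U' := Set.mem_iInter.2 hU
  obtain ⟨W, hW, hgW, hWU⟩ := exists_isAffineOpen_mem_and_subset (U := U') hinf
  have hle : ∀ j, W ≤ U j := fun j x hx => Set.mem_iInter.1 (hWU hx) j
  refine ⟨W, hW, hgW, fun ψ hψ j => ⟨X.presheaf.map (homOfLE (hle j)).op (s j), ?_⟩⟩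
  have hne' : Nonempty W := ⟨⟨_, hgW⟩⟩
  have h2 : ψ = e.toRingHom.comp (algebraMap Γ(X, W) X.functionField) := by
    have h3 : Spec.map (CommRingCat.ofHom ψ) =
        Spec.map (CommRingCat.ofHom (e.toRingHom.comp (algebraMap Γ(X, W) X.functionField))) := by
      rw [← cancel_mono hW.fromSpec, hψ, he, ← hW.fromSpecStalk_eq_fromSpecStalk hgW,
        IsAffineOpen.fromSpecStalk, ← Spec.map_comp_assoc]
      rfl
    exact congrArg CommRingCat.Hom.hom (Spec.map_injective h3)
  rw [h2, RingHom.comp_apply]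
  have h4 : algebraMap Γ(X, W) X.functionField (X.presheaf.map (homOfLE (hle j)).op (s j)) =
      X.presheaf.germ (U j) (genericPoint X) (hU j) (s j) :=
    X.presheaf.germ_res_apply (homOfLE (hle j)) (genericPoint X) hgW (s j)
  rw [h4, hs]
  exact e.apply_symm_apply _

end

end Pool.Agent.TGS
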