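import Mathlib

/-!
# TG, schemes: the projective space and its points with values in a field
-/

set_option autoImplicit false

open AlgebraicGeometry CategoryTheory HomogeneousLocalization

namespace Pool.Agent.TGS

section

variable {A : Type} [CommRing A] {σ : Type} [SetLike σ A] [AddSubgroupClass σ A] (𝒜 : ℕ → σ)
  [GradedRing 𝒜] {K : Type} [Field K] (ev : A →+* K)

/-- The homomorphism from the coordinate ring of the chart `D₊(f)`. -/
noncomputable def θ (f : A) (hf : ev f ≠ 0) : Away 𝒜 f →+* K :=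
  (Localization.awayLift ev f (isUnit_iff_ne_zero.2 hf)).comp
    (algebraMap (Away 𝒜 f) (Localization.Away f))

theorem θ_mk (f : A) (hf : ev f ≠ 0) {d : ℕ} (hd : f ∈ 𝒜 d) (n : ℕ) (x : A)
    (hx : x ∈ 𝒜 (n • d)) : θ 𝒜 ev f hf (Away.mk 𝒜 hd n x hx) = ev x / ev f ^ n := by
  unfold θ
  rw [RingHom.comp_apply, HomogeneousLocalization.algebraMap_apply, Away.val_mk,
    Localization.awayLift_mk (a := x) (v := (ev f)⁻¹) (j := n) (hv := mul_inv_cancel₀ hf),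
    inv_pow, div_eq_mul_inv]

theorem θ_zero (f : A) (hf : ev f ≠ 0) (a : 𝒜 0) :
    θ 𝒜 ev f hf (fromZeroRingHom 𝒜 _ a) = ev a := by
  unfold θ
  rw [RingHom.comp_apply, HomogeneousLocalization.algebraMap_apply]
  have h1 : (fromZeroRingHom 𝒜 (Submonoid.powers f) a).val =
      algebraMap A (Localization.Away f) a := by
    rw [← Localization.mk_one_eq_algebraMap]
    rfl
  rw [h1]
  exact IsLocalization.Away.lift_eq f (isUnit_iff_ne_zero.2 hf) _

theorem θ_awayMap (f g x : A) (hf : ev f ≠ 0) (hx : x = f * g) (hx0 : ev x ≠ 0) {d e : ℕ}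
    (hfd : f ∈ 𝒜 d) (hge : g ∈ 𝒜 e) (a : Away 𝒜 f) :
    θ 𝒜 ev x hx0 (awayMap 𝒜 hge hx a) = θ 𝒜 ev f hf a := by
  obtain ⟨n, a, ha, rfl⟩ := Away.mk_surjective 𝒜 hfd a
  rw [awayMap_mk, θ_mk, θ_mk, map_mul, map_pow, hx, map_mul, mul_pow]
  have h1 : ev g ≠ 0 := by
    intro h
    rw [hx, map_mul, h, mul_zero] at hx0
    exact hx0 rfl
  field_simp

/-- The point of `Proj` with values in `K`. -/
noncomputable def pt (f : A) (hf : ev f ≠ 0) {d : ℕ} (hfd : f ∈ 𝒜 d) (hd : 0 < d) :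
    Spec (CommRingCat.of K) ⟶ Proj 𝒜 :=
  Spec.map (CommRingCat.ofHom (θ 𝒜 ev f hf)) ≫ Proj.awayι 𝒜 f hfd hd

theorem pt_eq (f g : A) (hf : ev f ≠ 0) (hg : ev g ≠ 0) {d e : ℕ} (hfd : f ∈ 𝒜 d) (hd : 0 < d)
    (hge : g ∈ 𝒜 e) (he : 0 < e) : pt 𝒜 ev f hf hfd hd = pt 𝒜 ev g hg hge he := by
  have hfg : ev (f * g) ≠ 0 := by
    rw [map_mul]
    exact mul_ne_zero hf hg
  have key : ∀ (f g x : A) (_ : x = f * g) (hf : ev f ≠ 0) (hx : ev x ≠ 0) {d e m : ℕ}
      (_ : m = d + e) (hfd : f ∈ 𝒜 d) (hd : 0 < d) (_ : g ∈ 𝒜 e) (hxm : x ∈ 𝒜 m) (hm : 0 < m),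
      pt 𝒜 ev f hf hfd hd = pt 𝒜 ev x hx hxm hm := by
    rintro f g x hfg hf hx d e m rfl hfd hd hge hxm hm
    unfold pt
    rw [← Proj.SpecMap_awayMap_awayι 𝒜 hfd hd hge hfg, ← Category.assoc, ← Spec.map_comp]
    congr 2
    apply CommRingCat.hom_ext
    ext a
    exact (θ_awayMap 𝒜 ev f g _ hf hfg hx hfd hge a).symm
  rw [key f g (f * g) rfl hf hfg rfl hfd hd hge (SetLike.mul_mem_graded hfd hge)
      (hd.trans_le (d.le_add_right e)),
    key g f (f * g) (mul_comm f g) hg hfg (add_comm d e) hge he hfd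
      (SetLike.mul_mem_graded hfd hge) (hd.trans_le (d.le_add_right e))]

end

end Pool.Agent.TGS
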