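import Pool.Agent.Lib.TG_h67.PSpace
import Pool.Agent.Lib.LU1G.Setup
import Pool.Agent.Lib.TG.Basic

/-!
# TG, schemes: the projective space over a field and the charts of a model
-/

set_option autoImplicit false

open AlgebraicGeometry CategoryTheory HomogeneousLocalization

namespace Pool.Agent.TGS

open Pool.Agent.LU1G (incV cpt)
open Pool.Agent.TG (Ov IsMin ch RV)

attribute [local instance] MvPolynomial.gradedAlgebra

section

variable (k : Type) [Field k] (N : ℕ)

/-- The grading of the polynomial ring. -/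
noncomputable abbrev gr : ℕ → Submodule k (MvPolynomial (Fin N) k) :=
  MvPolynomial.homogeneousSubmodule (Fin N) k

/-- The projective space. -/
noncomputable abbrev PS : Scheme.{0} := Proj (gr k N)

/-- The structure morphism. -/
noncomputable def toK : PS k N ⟶ Spec (CommRingCat.of k) :=
  Proj.toSpecZero (gr k N) ≫ Spec.map (CommRingCat.ofHom (algebraMap k (gr k N 0)))

theorem algebraMap_zero_bijective : Function.Bijective (algebraMap k (gr k N 0)) := by
  constructor
  · intro a b hab
    have h1 : (MvPolynomial.C a : MvPolynomial (Fin N) k) = MvPolynomial.C b :=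
      congrArg Subtype.val hab
    exact MvPolynomial.C_injective _ _ h1
  · rintro ⟨x, hx⟩
    have h1 : x ∈ (1 : Submodule k (MvPolynomial (Fin N) k)) := by
      rw [← MvPolynomial.homogeneousSubmodule_zero]
      exact hx
    obtain ⟨c, hc⟩ := Submodule.mem_one.1 h1
    exact ⟨c, Subtype.ext hc⟩

theorem isIso_zero : IsIso (Spec.map (CommRingCat.ofHom (algebraMap k (gr k N 0)))) := by
  let e : k ≃+* gr k N 0 := RingEquiv.ofBijective _ (algebraMap_zero_bijective k N)
  have h1 : IsIso (CommRingCat.ofHom (algebraMap k (gr k N 0))) := by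
    have h2 : CommRingCat.ofHom (algebraMap k (gr k N 0)) = e.toCommRingCatIso.hom := rfl
    rw [h2]
    infer_instance
  infer_instance

theorem isProper_toK : IsProper (toK k N) := by
  have h1 := isIso_zero k N
  have h3 : IsScalarTower k (gr k N 0) (MvPolynomial (Fin N) k) :=
    IsScalarTower.of_algebraMap_eq (R := k) (S := gr k N 0) (A := MvPolynomial (Fin N) k)
      fun c => rfl
  have h2 : Algebra.FiniteType (gr k N 0) (MvPolynomial (Fin N) k) :=
    Algebra.FiniteType.of_restrictScalars_finiteType k _ _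
  unfold toK
  infer_instance

end

section

variable {k K : Type} [Field k] [Field K] [Algebra k K] {N : ℕ} (p : Fin N → K)

/-- The evaluation at `p`. -/
noncomputable abbrev evp : MvPolynomial (Fin N) k →+* K :=
  (MvPolynomial.aeval p : MvPolynomial (Fin N) k →ₐ[k] K).toRingHom

theorem evp_X (i : Fin N) : evp (k := k) p (MvPolynomial.X i) = p i := MvPolynomial.aeval_X p i

theorem evp_C (c : k) : evp (k := k) p (MvPolynomial.C c) = algebraMap k K c :=
  MvPolynomial.aeval_C p c

theorem evp_ne (i : Fin N) (hi : p i ≠ 0) : evp (k := k) p (MvPolynomial.X i) ≠ 0 := by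
  rw [evp_X]
  exact hi

theorem X_mem (i : Fin N) : (MvPolynomial.X i : MvPolynomial (Fin N) k) ∈ gr k N 1 :=
  MvPolynomial.isHomogeneous_X k i

/-- The point of the projective space with values in `K`. -/
noncomputable def ptK (i : Fin N) (hi : p i ≠ 0) : Spec (CommRingCat.of K) ⟶ PS k N :=
  pt (gr k N) (evp p) (MvPolynomial.X i) (evp_ne p i hi) (X_mem i) one_pos

theorem ptK_eq (i j : Fin N) (hi : p i ≠ 0) (hj : p j ≠ 0) :
    ptK (k := k) p i hi = ptK p j hj := pt_eq _ _ _ _ _ _ _ _ _ _

/-- The chart homomorphism. -/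
noncomputable abbrev θK (i : Fin N) (hi : p i ≠ 0) :
    Away (gr k N) (MvPolynomial.X i : MvPolynomial (Fin N) k) →+* K :=
  θ (gr k N) (evp p) (MvPolynomial.X i) (evp_ne p i hi)

/-- The open immersion of the chart. -/
noncomputable abbrev chι (k : Type) [Field k] {N : ℕ} (i : Fin N) :
    Spec (CommRingCat.of (Away (gr k N) (MvPolynomial.X i : MvPolynomial (Fin N) k))) ⟶ PS k N :=
  Proj.awayι (gr k N) (MvPolynomial.X i) (X_mem i) one_pos

theorem ptK_def (i : Fin N) (hi : p i ≠ 0) :
    ptK (k := k) p i hi = Spec.map (CommRingCat.ofHom (θK p i hi)) ≫ chι k i := rfl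

/-- The homomorphism from the constants. -/
noncomputable def ck (i : Fin N) :
    k →+* Away (gr k N) (MvPolynomial.X i : MvPolynomial (Fin N) k) :=
  (fromZeroRingHom (gr k N) _).comp (algebraMap k (gr k N 0))

theorem chι_toK (i : Fin N) : chι k i ≫ toK k N = Spec.map (CommRingCat.ofHom (ck i)) := by
  unfold toK
  rw [Proj.awayι_toSpecZero_assoc, ← Spec.map_comp]
  rfl

theorem θK_ck (i : Fin N) (hi : p i ≠ 0) (c : k) : θK p i hi (ck i c) = algebraMap k K c := by
  unfold ck
  rw [RingHom.comp_apply]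
  refine (θ_zero (gr k N) (evp p) _ (evp_ne p i hi) _).trans ?_
  exact evp_C p c

theorem ptK_toK (i : Fin N) (hi : p i ≠ 0) :
    ptK (k := k) p i hi ≫ toK k N = Spec.map (CommRingCat.ofHom (algebraMap k K)) := by
  rw [ptK_def, Category.assoc, chι_toK, ← Spec.map_comp]
  congr 1
  apply CommRingCat.hom_ext
  ext c
  exact θK_ck p i hi c

/-- The elements of the range of the chart homomorphism. -/
theorem θK_mem (P : Submodule k K) (hp : Submodule.span k (Set.range p) = P) (i : Fin N)
    (hi : p i ≠ 0) (a : Away (gr k N) (MvPolynomial.X i : MvPolynomial (Fin N) k)) :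
    θK p i hi a ∈ ch P (p i) := by
  obtain ⟨n, a, ha, rfl⟩ := Away.mk_surjective (gr k N) (X_mem i) a
  have h1 : θK p i hi (Away.mk (gr k N) (X_mem i) n a ha) = evp p a / p i ^ n := by
    refine (θ_mk (gr k N) (evp p) _ (evp_ne p i hi) (X_mem i) n a ha).trans ?_
    rw [evp_X]
  rw [h1]
  have ha' : a.IsHomogeneous n := by
    have h2 : n • 1 = n := by rw [smul_eq_mul, mul_one]
    rw [h2] at ha
    exact ha
  have h3 : evp p a = ∑ d ∈ a.support, algebraMap k K (a.coeff d) * ∏ j, p j ^ d j :=
    MvPolynomial.eval₂_eq' _ _ _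
  rw [h3, Finset.sum_div]
  refine Subalgebra.sum_mem _ fun d hd => ?_
  have h4 : ∑ j, d j = n := by
    have h5 := ha' (MvPolynomial.mem_support_iff.1 hd)
    rw [← h5, Finsupp.weight_apply, Finsupp.sum_fintype _ _ (fun _ => by simp)]
    simp
  have h6 : algebraMap k K (a.coeff d) * (∏ j, p j ^ d j) / p i ^ n =
      algebraMap k K (a.coeff d) * ∏ j, (p j / p i) ^ d j := by
    rw [mul_div_assoc]
    congr 1
    simp only [div_pow]
    rw [Finset.prod_div_distrib, Finset.prod_pow_eq_pow_sum, h4]
  rw [h6]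
  refine Subalgebra.mul_mem _ (Subalgebra.algebraMap_mem _ _) (Subalgebra.prod_mem _ fun j _ => ?_)
  refine Subalgebra.pow_mem _ (TG.div_mem_ch ?_) _
  rw [← hp]
  exact Submodule.subset_span ⟨j, rfl⟩

/-- The ratios are in the range of the chart homomorphism. -/
theorem exists_θK (i j : Fin N) (hi : p i ≠ 0) :
    ∃ a : Away (gr k N) (MvPolynomial.X i : MvPolynomial (Fin N) k),
      θK p i hi a = p j / p i := by
  refine ⟨Away.mk (gr k N) (X_mem i) 1 (MvPolynomial.X j) (by rw [one_smul]; exact X_mem j), ?_⟩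
  refine (θ_mk (gr k N) (evp p) _ (evp_ne p i hi) (X_mem i) 1 _ _).trans ?_
  rw [evp_X, evp_X, pow_one]

end

end Pool.Agent.TGS
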