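import Pool.Agent.Lib.LU2G.Smooth
import Pool.Agent.Lib.LU2G.ChainS

/-!
# TG, schemes: smoothness at the centre of a valuation ring
-/

set_option autoImplicit false

open AlgebraicGeometry CategoryTheory

namespace Pool.Agent.TGS

open Pool.Agent.LU1G (IsGen cpt incV SmoothAt factor_affine frac_affine smoothAt_of_factor)
open Pool.Agent.LU2 (locV IsPar)
open Pool.Agent.LU2G (smooth_of_isPar)

/-- Inverting one element of a domain in its field of fractions. -/
theorem exists_away {k A K : Type} [Field k] [CommRing A] [Algebra k A] [Field K] [Algebra k K]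
    (ψ : A →ₐ[k] K) (hinj : Function.Injective ψ) (b : A) (b0 : ψ b ≠ 0) :
    ∃ σ : A →ₐ[k] Algebra.adjoin k ((ψ.range : Set K) ∪ {(ψ b)⁻¹}),
      (∀ a, (σ a : K) = ψ a) ∧
      @IsLocalization.Away A _ b (Algebra.adjoin k ((ψ.range : Set K) ∪ {(ψ b)⁻¹})) _
        σ.toRingHom.toAlgebra := by
  obtain ⟨B, hB⟩ : ∃ B : Subalgebra k K, B = Algebra.adjoin k
      ((ψ.range : Set K) ∪ {(ψ b)⁻¹}) := ⟨_, rfl⟩
  rw [← hB]
  have hle : ∀ a : A, ψ a ∈ B := fun a => hB ▸ Algebra.subset_adjoin (Or.inl ⟨a, rfl⟩)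
  have hinv : (ψ b)⁻¹ ∈ B := hB ▸ Algebra.subset_adjoin (Or.inr rfl)
  let σ : A →ₐ[k] B := ψ.codRestrict B hle
  refine ⟨σ, fun a => rfl, ?_⟩
  let _ : Algebra A B := σ.toRingHom.toAlgebra
  have hcoe : ∀ s : A, ((algebraMap A B s : B) : K) = ψ s := fun s => rfl
  refine ⟨⟨?_, ?_, ?_⟩⟩
  · rintro ⟨y, n, rfl⟩
    have h1 : IsUnit (algebraMap A B b) := by
      refine IsUnit.of_mul_eq_one ⟨(ψ b)⁻¹, hinv⟩ ?_
      apply Subtype.ext
      change ψ b * (ψ b)⁻¹ = 1
      exact mul_inv_cancel₀ b0
    change IsUnit (algebraMap A B (b ^ n))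
    rw [map_pow]
    exact h1.pow n
  · rintro ⟨z, hz⟩
    have key : ∀ z ∈ B, ∃ (s : A) (n : ℕ), z * ψ b ^ n = ψ s := by
      intro z hz
      rw [hB] at hz
      induction hz using Algebra.adjoin_induction with
      | mem x hx =>
        rcases hx with ⟨a, rfl⟩ | hx
        · exact ⟨a, 0, by rw [pow_zero, mul_one]; rfl⟩
        · refine ⟨1, 1, ?_⟩
          rw [Set.mem_singleton_iff.1 hx, pow_one, inv_mul_cancel₀ b0, map_one]
      | algebraMap c =>
        exact ⟨algebraMap k A c, 0, by rw [pow_zero, mul_one, ψ.commutes]⟩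
      | add x y _ _ hx hy =>
        obtain ⟨s, n, hs⟩ := hx
        obtain ⟨t, m, ht⟩ := hy
        refine ⟨s * b ^ m + t * b ^ n, n + m, ?_⟩
        rw [map_add, map_mul, map_mul, map_pow, map_pow, ← hs, ← ht]
        ring
      | mul x y _ _ hx hy =>
        obtain ⟨s, n, hs⟩ := hx
        obtain ⟨t, m, ht⟩ := hy
        refine ⟨s * t, n + m, ?_⟩
        rw [map_mul, ← hs, ← ht]
        ring
    obtain ⟨s, n, hsn⟩ := key z hz
    refine ⟨(s, ⟨b ^ n, n, rfl⟩), ?_⟩
    apply Subtype.ext
    change z * ψ (b ^ n) = ψ s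
    rw [map_pow]
    exact hsn
  · intro x y hxy
    refine ⟨1, ?_⟩
    have h1 : ψ x = ψ y := congrArg (fun b : B => (b : K)) hxy
    rw [hinj h1]

/-- The coordinate ring of an affine open neighbourhood `O` of the centre of `V`, as a subalgebra
`B` of `K`: `Y` is smooth at the centre of `V` if `B` is, up to a denominator of value `0`. -/
theorem exists_chart_ring {k K : Type} [Field k] [Field K] [Algebra k K] {Y : Scheme.{0}}
    [IsIntegral Y] (g : Y ⟶ Spec (CommRingCat.of k)) [LocallyOfFiniteType g]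
    (η : Spec (CommRingCat.of K) ⟶ Y) (hη : IsGen η)
    (hηg : η ≫ g = Spec.map (CommRingCat.ofHom (algebraMap k K)))
    (V : ValuationSubring K) (c : Spec (CommRingCat.of V) ⟶ Y) (hc : incV V ≫ c = η)
    (O : Y.Opens) (hO : IsAffineOpen O) (hcO : c (cpt V) ∈ O) (φ : Γ(Y, O) →+* V)
    (hφ : Spec.map (CommRingCat.ofHom φ) ≫ hO.fromSpec = c) :
    ∃ B : Subalgebra k K, B.FG ∧ (∀ b, b ∈ B ↔ ∃ a, (φ a : K) = b) ∧
      ∀ t ∈ B, V.valuation t = 1 →
        Algebra.Smooth k (Algebra.adjoin k ((B : Set K) ∪ {t⁻¹})) → SmoothAt g (c (cpt V)) := by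
  let A : Type := Γ(Y, O)
  let _ : CommRing A := inferInstanceAs (CommRing Γ(Y, O))
  let φk : k →+* A := (Spec.preimage (hO.fromSpec ≫ g)).hom
  let _ : Algebra k A := φk.toAlgebra
  have hφk : Spec.map (CommRingCat.ofHom φk) = hO.fromSpec ≫ g := by
    rw [CommRingCat.ofHom_hom, Spec.map_preimage]
  have hft : Algebra.FiniteType k A := by
    have h1 : LocallyOfFiniteType (Spec.map (CommRingCat.ofHom φk)) := by
      rw [hφk]
      infer_instance
    exact (HasRingHomProperty.Spec_iff (P := @LocallyOfFiniteType)).mp h1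
  let ψ : A →+* K := (algebraMap V K).comp φ
  have hψ : Spec.map (CommRingCat.ofHom ψ) ≫ hO.fromSpec = η := by
    rw [← hc, ← hφ, ← Category.assoc, ← Spec.map_comp]
    rfl
  have hψk : ∀ a : k, ψ (φk a) = algebraMap k K a := by
    have h1 : Spec.map (CommRingCat.ofHom (algebraMap k K)) =
        Spec.map (CommRingCat.ofHom (ψ.comp φk)) := by
      rw [← hηg, ← hψ, Category.assoc, ← hφk, ← Spec.map_comp]
      rfl
    have h2 : algebraMap k K = ψ.comp φk := congrArg CommRingCat.Hom.hom (Spec.map_injective h1)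
    intro a
    rw [h2]
    rfl
  let ψ' : A →ₐ[k] K := { ψ with commutes' := hψk }
  have hinj : Function.Injective ψ' := by
    have h1 := frac_affine O hO ⟨_, hcO⟩ η hη ψ hψ
    letI : Algebra A K := ψ.toAlgebra
    exact IsFractionRing.injective A K
  refine ⟨ψ'.range, ?_, ?_, ?_⟩
  · have h1 := (Algebra.FiniteType.out (R := k) (A := A)).map ψ'
    rwa [Algebra.map_top] at h1
  · intro b
    exact Iff.rfl
  · intro t ht ht1 hsm
    obtain ⟨h, hht⟩ : ∃ h : A, ψ' h = t := ht
    have h0 : ψ' h ≠ 0 := by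
      rw [hht]
      intro h'
      rw [h', map_zero] at ht1
      exact zero_ne_one ht1
    rw [← hht] at hsm
    obtain ⟨σ, hσ, hloc⟩ := exists_away ψ' hinj h h0
    obtain ⟨S', hS'⟩ : ∃ S' : Subalgebra k K, S' = Algebra.adjoin k
      ((ψ'.range : Set K) ∪ {(ψ' h)⁻¹}) := ⟨_, rfl⟩
    rw [← hS'] at hsm
    revert σ
    rw [← hS']
    intro σ hσ hloc
    letI : Algebra A S' := σ.toRingHom.toAlgebra
    have hopen : IsOpenImmersion (Spec.map (CommRingCat.ofHom (algebraMap A S'))) :=
      IsOpenImmersion.of_isLocalization (R := A) (S := S') h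
    have hSV : ∀ x : S', (x : K) ∈ V := by
      have h1 : S' ≤ { V.toSubring with
          algebraMap_mem' := fun a => by
            change algebraMap k K a ∈ V
            rw [← hψk]
            exact (φ (φk a)).2 } := by
        rw [hS', Algebra.adjoin_le_iff]
        rintro x (⟨a, rfl⟩ | hx)
        · exact (φ a).2
        · rw [Set.mem_singleton_iff.1 hx, hht]
          change t⁻¹ ∈ V
          rw [← ValuationSubring.valuation_le_one_iff, map_inv₀, ht1, inv_one]
      intro x
      exact h1 x.2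
    let θ : S' →+* V := S'.val.toRingHom.codRestrict V hSV
    have hθ : θ.comp (algebraMap A S') = φ := by
      ext a
      exact hσ a
    let j : Spec (CommRingCat.of S') ⟶ Y :=
      Spec.map (CommRingCat.ofHom (algebraMap A S')) ≫ hO.fromSpec
    have hj : AlgebraicGeometry.Smooth (j ≫ g) := by
      have h1 : j ≫ g = Spec.map (CommRingCat.ofHom (algebraMap k S')) := by
        change (Spec.map (CommRingCat.ofHom (algebraMap A S')) ≫ hO.fromSpec) ≫ g = _
        rw [Category.assoc, ← hφk, ← Spec.map_comp]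
        have h2 : CommRingCat.ofHom φk ≫ CommRingCat.ofHom (algebraMap A S') =
            CommRingCat.ofHom (algebraMap k S') := by
          have h3 : (algebraMap A S').comp φk = algebraMap k S' := by
            ext a
            exact congrArg Subtype.val (σ.commutes a)
          rw [← h3]
          rfl
        rw [h2]
      rw [h1, HasRingHomProperty.Spec_iff (P := @AlgebraicGeometry.Smooth)]
      exact (RingHom.smooth_algebraMap).2 hsm
    have hy : j (Spec.map (CommRingCat.ofHom θ) (cpt V)) = c (cpt V) := by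
      have h1 : Spec.map (CommRingCat.ofHom θ) ≫ j = c := by
        change Spec.map (CommRingCat.ofHom θ) ≫
          Spec.map (CommRingCat.ofHom (algebraMap A S')) ≫ hO.fromSpec = c
        rw [← Category.assoc, ← Spec.map_comp]
        have h2 : CommRingCat.ofHom (algebraMap A S') ≫ CommRingCat.ofHom θ =
            CommRingCat.ofHom φ := by
          rw [← hθ]
          rfl
        rw [h2, hφ]
      rw [← h1]
      rfl
    rw [← hy]
    exact smoothAt_of_factor g j hj _

end Pool.Agent.TGS
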