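import Pool.Agent.Lib.TG_h67.Build
import Pool.Agent.Lib.TG_h67.SmoothPt
import Pool.Agent.Lib.ALL_h67.Points
import Pool.Agent.Lib.ALL_h25.Coarse
import Pool.Agent.Lib.TG.WLz
import Pool.Agent.Lib.LU2H.Final

/-!
# TG, schemes: resolution of singularities from `[n]`
-/

set_option autoImplicit false

open AlgebraicGeometry CategoryTheory Limits

namespace Pool.Agent.TGS

open Pool.Agent.LU1G (IsGen cpt incV SmoothAt factor_affine frac_affine)
open Pool.Agent.LU2G (gen_unique lift_unique smooth_of_isPar const_mem consts IsSmoothAt)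
open Pool.Agent.LU2 (locV IsPar)
open Pool.Agent.ALLQC (exists_centre)
open Pool.Agent.TG

section

variable {k K : Type} [Field k] [Field K] [Algebra k K]

/-- A morphism that is smooth at all points is smooth. -/
theorem smooth_of_forall {Y S : Scheme.{0}} (g : Y ⟶ S) (h : ∀ y : Y, SmoothAt g y) :
    AlgebraicGeometry.Smooth g := by
  choose U hU hs using h
  refine (IsZariskiLocalAtSource.iff_of_iSup_eq_top (P := @AlgebraicGeometry.Smooth) U ?_).2 hs
  rw [eq_top_iff]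
  intro y _
  rw [TopologicalSpace.Opens.mem_iSup]
  exact ⟨y, hU y⟩

/-- Resolution from a regular model. -/
theorem exists_resolution_of_model [PerfectField k] (X : Scheme.{0}) [IsIntegral X]
    (f : X ⟶ Spec (CommRingCat.of k)) [LocallyOfFiniteType f]
    (η : Spec (CommRingCat.of K) ⟶ X) (hη : IsGen η)
    (hηf : η ≫ f = Spec.map (CommRingCat.ofHom (algebraMap k K))) (P : Submodule k K)
    (hP : IsModel P)
    (hdom : ∀ (V : ValuationSubring K) (c : Spec (CommRingCat.of V) ⟶ X), incV V ≫ c = η →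
      ∃ (U : X.Opens) (hU : IsAffineOpen U) (φ : Γ(X, U) →+* V),
        Spec.map (CommRingCat.ofHom φ) ≫ hU.fromSpec = c ∧ ∀ a, (φ a : K) ∈ RV V P)
    (hreg : ∀ V : ValuationSubring K, Ov k V → ∃ (n : ℕ) (t : Fin n → K), IsPar V (RV V P) t) :
    ∃ (Y : Scheme.{0}) (_ : IsIntegral Y) (π : Y ⟶ X) (ηY : Spec (CommRingCat.of K) ⟶ Y),
      IsProper π ∧ AlgebraicGeometry.Smooth (π ≫ f) ∧ ηY ≫ π = η ∧ IsGen ηY ∧
      (∃ W : X.Opens, genericPoint X ∈ W ∧ IsIso (π ∣_ W)) ∧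
      ∀ (V : ValuationSubring K) (c : Spec (CommRingCat.of V) ⟶ Y), incV V ≫ c = ηY → Ov k V →
        ∃ (O : Y.Opens) (hO : IsAffineOpen O) (φ : Γ(Y, O) →+* V), c (cpt V) ∈ O ∧
          Spec.map (CommRingCat.ofHom φ) ≫ hO.fromSpec = c ∧ (∀ a, (φ a : K) ∈ RV V P) ∧
          ∀ r ∈ RV V P, ∃ a b, V.valuation (φ b : K) = 1 ∧ r = (φ a : K) / φ b := by
  obtain ⟨Y, hY, π, ηY, hπ, hηπ, hgen, hbir, hloc⟩ := exists_model_scheme X f η hη hηf P hP
  have hloc' : ∀ (V : ValuationSubring K) (c : Spec (CommRingCat.of V) ⟶ Y), incV V ≫ c = ηY →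
      Ov k V → ∃ (O : Y.Opens) (hO : IsAffineOpen O) (φ : Γ(Y, O) →+* V), c (cpt V) ∈ O ∧
          Spec.map (CommRingCat.ofHom φ) ≫ hO.fromSpec = c ∧ (∀ a, (φ a : K) ∈ RV V P) ∧
          ∀ r ∈ RV V P, ∃ a b, V.valuation (φ b : K) = 1 ∧ r = (φ a : K) / φ b := by
    intro V c hc hV
    refine hloc V c hc hV (hdom V (c ≫ π) ?_)
    rw [← Category.assoc, hc, hηπ]
  refine ⟨Y, hY, π, ηY, hπ, smooth_of_forall _ fun y => ?_, hηπ, hgen, hbir, hloc'⟩
  obtain ⟨V, c, hc, rfl⟩ := exists_centre ηY hgen y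
  have hηYf : ηY ≫ π ≫ f = Spec.map (CommRingCat.ofHom (algebraMap k K)) := by
    rw [← Category.assoc, hηπ, hηf]
  have hV : Ov k V := const_mem (π ≫ f) ηY hηYf V c hc
  obtain ⟨O, hO, φ, hcO, hφ, hφR, hR⟩ := hloc' V c hc hV
  obtain ⟨B, hBfg, hB, hBsm⟩ := exists_chart_ring (π ≫ f) ηY hgen hηYf V c hc O hO hcO φ hφ
  have hBV : ∀ b ∈ B, b ∈ V := by
    intro b hb
    obtain ⟨a, rfl⟩ := (hB b).1 hb
    exact (φ a).2
  have hlocB : locV V B = RV V P := by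
    apply le_antisymm
    · refine LU2.locV_le (fun b hb => ?_) fun a ha h1 => RV_inv ha h1
      obtain ⟨a, rfl⟩ := (hB b).1 hb
      exact hφR a
    · intro r hr
      obtain ⟨a, b, hb1, hab⟩ := hR r hr
      exact ⟨φ a, (hB _).2 ⟨a, rfl⟩, φ b, (hB _).2 ⟨b, rfl⟩, hb1, hab⟩
  obtain ⟨n, t, ht⟩ := hreg V hV
  rw [← hlocB] at ht
  obtain ⟨s, hs, hs1, hsm⟩ := smooth_of_isPar V B hBfg hBV ht
  exact hBsm s hs hs1 hsm

/-- Regular parameters everywhere from those at the zero-dimensional valuation rings. -/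
theorem exists_isPar_of_logReg [IsAlgClosed k] {n : ℕ} {P : Submodule k K} (hP : IsModel P)
    {Z : Set K} (h : LogReg n P Z) (V : ValuationSubring K) (hV : Ov k V) :
    ∃ (m : ℕ) (t : Fin m → K), IsPar V (RV V P) t := by
  obtain ⟨W, hWV, hW⟩ := exists_zdim_le hV
  obtain ⟨t, ht, -⟩ := h W hW
  obtain ⟨f, hf⟩ := exists_isMin hW.ov hP
  have h1 := ht.par
  rw [RV_eq hf] at h1
  obtain ⟨m, w, hw⟩ := ALLF.exists_isPar_coarse hWV (ch P f) (ch_fg hP.fg) (ch_le hW.ov hf)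
    hW.res h1
  exact ⟨m, w, by rw [RV_eq (hf.of_le hWV)]; exact hw⟩

end

end Pool.Agent.TGS
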